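import Mathlib

/-!
# H11S: a Gaussian average in one variable

If `∑ u k x ^ (2 k) ≥ c` for all `x > 0` then `∑ u k (2 k)! / (4 ^ k k!) ≥ c`: integrate against
`2 / √π * exp (- x ^ 2)` over `(0, ∞)`.
-/

open Finset MeasureTheory

namespace Pool.Agent.H11S

theorem gamma_half (k : ℕ) :
    Real.Gamma ((2 * (k : ℝ) + 1) / 2) =
      ((2 * k).factorial : ℝ) / (4 ^ k * k.factorial) * √Real.pi := by
  induction k with
  | zero =>
    rw [show (2 * ((0 : ℕ) : ℝ) + 1) / 2 = 1 / 2 by norm_num, Real.Gamma_one_half_eq]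
    simp
  | succ k ih =>
    have h1 : ((2 * ((k + 1 : ℕ) : ℝ) + 1) / 2) = ((2 * (k : ℝ) + 1) / 2) + 1 := by
      push_cast
      ring
    rw [h1, Real.Gamma_add_one (by positivity), ih]
    have h2 : ((2 * (k + 1)).factorial : ℝ) = (2 * (k : ℝ) + 2) * (2 * k + 1) * (2 * k).factorial := by
      rw [show 2 * (k + 1) = 2 * k + 1 + 1 by ring, Nat.factorial_succ, Nat.factorial_succ]
      push_cast
      ring
    have h3 : ((k + 1).factorial : ℝ) = (k + 1) * k.factorial := by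
      rw [Nat.factorial_succ]
      push_cast
      ring
    rw [h2, h3, pow_succ]
    have h4 : ((k : ℝ) + 1) ≠ 0 := by positivity
    have h5 : (k.factorial : ℝ) ≠ 0 := by positivity
    field_simp
    ring

theorem moment (k : ℕ) :
    ∫ x in Set.Ioi (0 : ℝ), x ^ (2 * k) * Real.exp (-x ^ 2) =
      (√Real.pi / 2) * (((2 * k).factorial : ℝ) / (4 ^ k * k.factorial)) := by
  have h := integral_rpow_mul_exp_neg_rpow (p := 2) (q := ((2 * k : ℕ) : ℝ)) (by norm_num)
    (by
      have : (0 : ℝ) ≤ ((2 * k : ℕ) : ℝ) := Nat.cast_nonneg _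
      linarith)
  have e : ∀ x : ℝ, x ^ (((2 * k : ℕ) : ℝ)) * Real.exp (-x ^ (2 : ℝ)) =
      x ^ (2 * k) * Real.exp (-x ^ 2) := by
    intro x
    rw [Real.rpow_natCast]
    congr 3
    exact_mod_cast Real.rpow_natCast x 2
  simp only [e] at h
  rw [h]
  have h2 : ((((2 * k : ℕ) : ℝ)) + 1) / 2 = (2 * (k : ℝ) + 1) / 2 := by push_cast; rfl
  rw [h2, gamma_half]
  ring

theorem integrable_moment (k : ℕ) :
    IntegrableOn (fun x : ℝ => x ^ (2 * k) * Real.exp (-x ^ 2)) (Set.Ioi 0) := by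
  have h := integrableOn_rpow_mul_exp_neg_rpow (p := 2) (s := ((2 * k : ℕ) : ℝ))
    (by
      have : (0 : ℝ) ≤ ((2 * k : ℕ) : ℝ) := Nat.cast_nonneg _
      linarith) (by norm_num)
  have e : ∀ x : ℝ, x ^ (((2 * k : ℕ) : ℝ)) * Real.exp (-x ^ (2 : ℝ)) =
      x ^ (2 * k) * Real.exp (-x ^ 2) := by
    intro x
    rw [Real.rpow_natCast]
    congr 3
    exact_mod_cast Real.rpow_natCast x 2
  simp only [e] at h
  exact h

theorem avg (M : ℕ) (u : ℕ → ℝ) (c : ℝ)
    (h : ∀ x : ℝ, 0 < x → c ≤ ∑ k ∈ range M, u k * x ^ (2 * k)) :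
    c ≤ ∑ k ∈ range M, u k * (((2 * k).factorial : ℝ) / (4 ^ k * k.factorial)) := by
  have hs : 0 < √Real.pi / 2 := by positivity
  have h1 : ∫ x in Set.Ioi (0 : ℝ), c * (x ^ (2 * 0) * Real.exp (-x ^ 2)) ≤
      ∫ x in Set.Ioi (0 : ℝ), ∑ k ∈ range M, u k * (x ^ (2 * k) * Real.exp (-x ^ 2)) := by
    refine setIntegral_mono_on ((integrable_moment 0).const_mul c)
      (integrable_finsetSum _ fun k _ => (integrable_moment k).const_mul (u k))
      measurableSet_Ioi fun x hx => ?_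
    have h2 := h x hx
    have h3 : ∑ k ∈ range M, u k * (x ^ (2 * k) * Real.exp (-x ^ 2)) =
        (∑ k ∈ range M, u k * x ^ (2 * k)) * Real.exp (-x ^ 2) := by
      rw [Finset.sum_mul]
      exact Finset.sum_congr rfl fun k _ => by ring
    rw [h3, mul_zero, pow_zero, one_mul]
    exact mul_le_mul_of_nonneg_right h2 (Real.exp_pos _).le
  rw [integral_finsetSum _ fun k _ => (integrable_moment k).const_mul (u k)] at h1
  simp only [integral_const_mul, moment] at h1
  have h4 : ∑ k ∈ range M, u k * (√Real.pi / 2 * (((2 * k).factorial : ℝ) / (4 ^ k * k.factorial))) =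
      √Real.pi / 2 * ∑ k ∈ range M, u k * (((2 * k).factorial : ℝ) / (4 ^ k * k.factorial)) := by
    rw [Finset.mul_sum]
    exact Finset.sum_congr rfl fun k _ => by ring
  rw [h4] at h1
  simp at h1
  have h5 : √Real.pi / 2 * c ≤
      √Real.pi / 2 * ∑ k ∈ range M, u k * (((2 * k).factorial : ℝ) / (4 ^ k * k.factorial)) := by
    linarith
  exact le_of_mul_le_mul_left h5 hs

end Pool.Agent.H11S
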