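import Pool.Agent.Lib.H11S.First

/-!
# H11S: the sum of the two curvature conditions

`R₁` with nonnegative curvature operator, `R₂ - h kn 1` with the sphere condition of `H88S`: then the
Gauss–Bonnet integrand of `R₁ + R₂` is at least its value for constant curvature `h`.
-/

open Finset

namespace Pool.Agent.H11S

open Pool.Agent.H69Hopf Pool.Agent.H88S

variable {n : ℕ}

/-- The functional `S ↦ (-1)ⁿ n! (exp (-2 h ∂_g²) exp (-𝒟_R) S det) (0)`. -/
noncomputable def ell (n : ℕ) (R : Arr (2 * n)) (h : ℝ) : Op (2 * n) →ₗ[ℝ] ℝ where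
  toFun S := n.factorial * ((-1) ^ n *
    ev0 (E ((-(2 * h)) • (dg ^ 2 : Op (2 * n))) (E ((-1 : ℝ) • dR R) (S detP))))
  map_add' S T := by
    simp only [LinearMap.add_apply, map_add, ev0_add]
    ring
  map_smul' a S := by
    simp only [LinearMap.smul_apply, map_smul, ev0_smul, RingHom.id_apply, smul_eq_mul]
    ring

theorem ell_apply (n : ℕ) (R : Arr (2 * n)) (h : ℝ) (S : Op (2 * n)) :
    ell n R h S = n.factorial * ((-1) ^ n *
      ev0 (E ((-(2 * h)) • (dg ^ 2 : Op (2 * n))) (E ((-1 : ℝ) • dR R) (S detP)))) := rfl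

theorem ell_cosA {R : Arr (2 * n)} (hR : IsAlgCurv R) (hS : SphereNonneg R) {h : ℝ} (hh : 0 ≤ h)
    {A : Mat (2 * n)} (hA : A.transpose = -A) :
    (2 * h) ^ n * (2 * n).factorial ≤ ell n R h (cosA A) := by
  have hW := start_cosA hA
  have hmem : E ((-1 : ℝ) • dR R) * cosA A ∈ U (2 * n) :=
    mul_mem (E_mem (Subalgebra.smul_mem _ (dR_mem R) _)) (cosA_mem A)
  have hem : EM (E ((-1 : ℝ) • dR R) * cosA A) := (EM_E_dR (-1) R).mul (EM_cosA A)
  have h1 := coeff_em_top hmem hem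
  have h2 := coeff_em_odd hmem hem
  have h3 : (E ((-1 : ℝ) • dR R) * cosA A) detP = E ((-1 : ℝ) • dR R) (cosA A detP) :=
    Module.End.mul_apply _ _ _
  rw [h3] at h1
  simp only [h3] at h2
  rw [ell_apply]
  exact lower_of_rr (rr_final hR hS hW) h1 h2 hh

theorem ell_sum {ι : Type*} {R : Arr (2 * n)} (hR : IsAlgCurv R) (hS : SphereNonneg R) {h : ℝ}
    (hh : 0 ≤ h) {κ : ι → Mat (2 * n)} (hκ : ∀ p, (κ p).transpose = -κ p) (s : Finset ι) :
    ∀ A : Mat (2 * n), A.transpose = -A → (2 * h) ^ n * (2 * n).factorial ≤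
      ell n R h (E ((-1 : ℝ) • ∑ p ∈ s, (dA (κ p) ^ 2 : Op (2 * n))) * cosA A) := by
  classical
  induction s using Finset.induction_on with
  | empty =>
    intro A hA
    rw [Finset.sum_empty, smul_zero, E_zero, one_mul]
    exact ell_cosA hR hS hh hA
  | insert a s ha ih =>
    intro A hA
    have hpos : ∀ p, Pos (dA (κ p) ^ 2 : Op (2 * n)) := fun p => by
      rw [sq]
      exact pos_mul (pos_dA _) (pos_dA _)
    have hpos' : Pos (∑ p ∈ s, (dA (κ p) ^ 2 : Op (2 * n))) :=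
      Finset.sum_induction _ Pos (fun _ _ => pos_add) pos_zero fun p _ => hpos p
    have hU : ∀ p, (dA (κ p) ^ 2 : Op (2 * n)) ∈ U (2 * n) := fun p => pow_mem (dA_mem _) 2
    have hU' : (∑ p ∈ s, (dA (κ p) ^ 2 : Op (2 * n))) ∈ U (2 * n) := sum_mem fun p _ => hU p
    have h1 : E ((-1 : ℝ) • ∑ p ∈ insert a s, (dA (κ p) ^ 2 : Op (2 * n))) =
        E ((-1 : ℝ) • ∑ p ∈ s, (dA (κ p) ^ 2 : Op (2 * n))) *
          E ((-1 : ℝ) • (dA (κ a) ^ 2 : Op (2 * n))) := by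
      rw [Finset.sum_insert ha, add_comm, smul_add]
      exact E_add (pos_smul _ hpos') (pos_smul _ (hpos a))
        (U_comm (Subalgebra.smul_mem _ hU' _) (Subalgebra.smul_mem _ (hU a) _))
    rw [h1]
    exact avg_step (ell n R h) _ _ ih (hκ a) A hA

theorem gb_sum {R₁ R₂ : Arr (2 * n)} (h1 : IsAlgCurv R₁)
    (hpsd : ∀ ω : Mat (2 * n), ω.transpose = -ω → 0 ≤ firstKind R₁ ω) (h2 : IsAlgCurv R₂)
    {h : ℝ} (hh : 0 ≤ h) (hS : SphereNonneg (R₂ - h • kn (1 : Mat (2 * n)))) :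
    (2 * h) ^ n * (2 * n).factorial ≤ gaussBonnet n (R₁ + R₂) := by
  obtain ⟨κ, hκ, hRκ⟩ := exists_kappa h1 hpsd
  set R' := R₂ - h • kn (1 : Mat (2 * n)) with hR'
  have hA' : IsAlgCurv R' := algCurv_sub_kn h2 h
  set κ' : Fin (2 * n) × Fin (2 * n) → Mat (2 * n) := fun p => √2 • κ p with hκ'
  have hκ's : ∀ p, (κ' p).transpose = -κ' p := fun p => by
    rw [hκ']
    simp only
    rw [Matrix.transpose_smul, hκ, smul_neg]
  have hsq : ∀ p, (dA (κ' p) ^ 2 : Op (2 * n)) = (2 : ℝ) • (dA (κ p) ^ 2 : Op (2 * n)) := by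
    intro p
    rw [hκ']
    simp only
    rw [dA_smul, smul_pow, Real.sq_sqrt (by norm_num)]
  have key := ell_sum hA' hS hh hκ's univ 0 (by
    ext i j
    simp)
  rw [cosA_zero, mul_one] at key
  refine key.trans (le_of_eq ?_)
  have hdR : dR (R₁ + R₂) = h • dR (kn (1 : Mat (2 * n))) + (dR R' + dR R₁) := by
    rw [← dR_smul, ← dR_add, ← dR_add, hR']
    congr 1
    abel
  have hanti0 : Anti (detP : PP (2 * n)) := anti_detRow 0
  have hUR : ∀ R : Arr (2 * n), E ((-1 : ℝ) • dR R) ∈ U (2 * n) := fun R =>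
    E_mem (Subalgebra.smul_mem _ (dR_mem R) _)
  have hUs : (∑ p, (dA (κ' p) ^ 2 : Op (2 * n))) ∈ U (2 * n) :=
    sum_mem fun p _ => pow_mem (dA_mem _) 2
  have hE1 : E ((-1 : ℝ) • dR R₁) (detP : PP (2 * n)) =
      E ((-1 : ℝ) • ∑ p, (dA (κ' p) ^ 2 : Op (2 * n))) detP := by
    refine E_congr_anti hUs (fun G hG => ?_) hanti0 (-1)
    rw [dR_first h1 hRκ hG]
    simp only [hsq]
  have hE : E ((-1 : ℝ) • dR (R₁ + R₂)) (detP : PP (2 * n)) =
      E ((-(2 * h)) • (dg ^ 2 : Op (2 * n))) (E ((-1 : ℝ) • dR R')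
        (E ((-1 : ℝ) • ∑ p, (dA (κ' p) ^ 2 : Op (2 * n))) detP)) := by
    rw [← hE1, ← E_dR_kn_one (Anti.apply (hUR R') (Anti.apply (hUR R₁) hanti0))]
    have e1 : (-1 : ℝ) • dR (R₁ + R₂) = (-h) • dR (kn (1 : Mat (2 * n))) +
        ((-1 : ℝ) • dR R' + (-1 : ℝ) • dR R₁) := by
      rw [hdR, smul_add, smul_smul, smul_add]
      congr 2
      ring
    rw [e1, E_add (pos_smul _ (pos_dR _))
      (pos_add (pos_smul _ (pos_dR _)) (pos_smul _ (pos_dR _)))
      (U_comm (Subalgebra.smul_mem _ (dR_mem _) _)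
        (add_mem (Subalgebra.smul_mem _ (dR_mem _) _) (Subalgebra.smul_mem _ (dR_mem _) _))),
      E_add (pos_smul _ (pos_dR _)) (pos_smul _ (pos_dR _))
        (U_comm (Subalgebra.smul_mem _ (dR_mem _) _) (Subalgebra.smul_mem _ (dR_mem _) _))]
    rfl
  have hfin := ev0_final (R₁ + R₂)
  rw [hE] at hfin
  rw [ell_apply, hfin]
  have hfac : (n.factorial : ℝ) ≠ 0 := by positivity
  have hpm : ((-1 : ℝ) ^ n) * (-1) ^ n = 1 := by
    rw [← mul_pow]
    norm_num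
  field_simp
  linear_combination gaussBonnet n (R₁ + R₂) * hpm

end Pool.Agent.H11S
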