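import Pool.Agent.Lib.H79G.P4
import Pool.Agent.Lib.H69.Hopf.Main
import Pool.Agent.Lib.H88S.Second
import Pool.Agent.Lib.H11S.Sum

/-!
# The curvature conditions in coordinates and in orthonormal frames
-/

set_option autoImplicit false

open Finset

namespace Pool.Agent.H11S.Closed

open Pool.Agent.H69Hopf Pool.Agent.H88S Pool.Agent.H11S H79G

variable {N : ℕ}

/-- The curvature condition, for the curvature tensor `R` in coordinates in which the metric has the
matrix `G`: `R = R₁ + R₂` with algebraic curvature tensors `R₁`, `R₂`, the curvature operator of `R₁`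
is nonpositive, and `R₂ + h • kn G` satisfies `SphereNonpos`, or the curvature operator of the second
kind of `R₂` is at most `-h`. -/
def SumNonpos (G : Mat N) (h : ℝ) (R : Arr N) : Prop :=
  ∃ R₁ R₂ : Arr N, IsAlgCurv R₁ ∧ IsAlgCurv R₂ ∧ R = R₁ + R₂ ∧
    (∀ ω : Mat N, ω.transpose = -ω → firstKind R₁ ω ≤ 0) ∧
    (SphereNonpos (R₂ + h • kn G) ∨
      ∀ Y : Mat N, Y.IsSymm → (G * Y).trace = 0 → h * (G * Y * G * Y).trace ≤ act R₂ Y Y)

theorem firstKind_inner (E A B : Mat N) (a b c e : Fin N) :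
    ∑ i, ∑ j, ∑ k, ∑ l, (E a i * E b j * E c k * E e l) * (A i j * B k l) =
      (E * A * E.transpose) a b * (E * B * E.transpose) c e := by
  rw [P4_conj, P4_conj, sum_mul]
  refine sum_congr rfl fun i _ => ?_
  rw [sum_mul]
  refine sum_congr rfl fun j _ => ?_
  rw [mul_sum]
  refine sum_congr rfl fun k _ => ?_
  rw [mul_sum]
  refine sum_congr rfl fun l _ => ?_
  ring

theorem firstKind_frame (R : Arr N) (E ω : Mat N) :
    firstKind (frameR R E) ω = firstKind R (E * ω * E.transpose) := by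
  unfold firstKind frameR
  simp only [P4_sum4]
  have h1 : ∀ p : Fin N × Fin N × Fin N × Fin N,
      (∑ q : Fin N × Fin N × Fin N × Fin N,
        R q.1 q.2.1 q.2.2.1 q.2.2.2 * E q.1 p.1 * E q.2.1 p.2.1 * E q.2.2.1 p.2.2.1 *
          E q.2.2.2 p.2.2.2) * ω p.1 p.2.1 * ω p.2.2.1 p.2.2.2 =
      ∑ q : Fin N × Fin N × Fin N × Fin N, R q.1 q.2.1 q.2.2.1 q.2.2.2 *
        ((E q.1 p.1 * E q.2.1 p.2.1 * E q.2.2.1 p.2.2.1 * E q.2.2.2 p.2.2.2) *
          (ω p.1 p.2.1 * ω p.2.2.1 p.2.2.2)) := by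
    intro p
    rw [sum_mul, sum_mul]
    refine sum_congr rfl fun q _ => ?_
    ring
  rw [sum_congr rfl fun p _ => h1 p, sum_comm]
  refine sum_congr rfl fun q _ => ?_
  rw [← mul_sum, mul_assoc, ← firstKind_inner E ω ω q.1 q.2.1 q.2.2.1 q.2.2.2, P4_sum4]

/-- The pointwise theorem in an orthonormal frame. -/
theorem sumNonpos_frame {n : ℕ} {h : ℝ} (hh : 0 ≤ h) {G E : Mat (2 * n)}
    (hE : E.transpose * G * E = 1) {R : Arr (2 * n)} (hc : SumNonpos G h R) :
    (2 * h) ^ n * (2 * n).factorial ≤ (-1) ^ n * gaussBonnet n (frameR R E) := by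
  obtain ⟨R₁, R₂, hR₁, hR₂, rfl, hyp₁, hyp₂⟩ := hc
  have hsum : frameR (R₁ + R₂) E = frameR R₁ E + frameR R₂ E := by
    have h1 := P4_frame_add R₁ R₂ 1 E
    rwa [one_smul, one_smul] at h1
  have hS : SphereNonpos (frameR R₂ E + h • kn (1 : Mat (2 * n))) := by
    rcases hyp₂ with h1 | h1
    · exact sphereNonpos_frame hE h h1
    · exact sphereNonpos_secondKind_h (frame_algCurv hR₂ E) h
        fun Y hY h0 => second_frame hE h h1 Y hY h0
  have hn : (fun i j k l => -(frameR R₁ E + frameR R₂ E) i j k l) =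
      -frameR R₁ E + -frameR R₂ E := by
    funext i j k l
    simp only [Pi.add_apply, Pi.neg_apply]
    ring
  rw [hsum, ← gb_neg, hn]
  have hA₁ : IsAlgCurv (-frameR R₁ E) := algCurv_neg (frame_algCurv hR₁ E)
  have hA₂ : IsAlgCurv (-frameR R₂ E) := algCurv_neg (frame_algCurv hR₂ E)
  refine gb_sum hA₁ (fun ω hω => ?_) hA₂ hh ?_
  · have h1 : firstKind (-frameR R₁ E) ω = - firstKind (frameR R₁ E) ω := by
      unfold firstKind
      simp only [Pi.neg_apply, neg_mul, sum_neg_distrib]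
    rw [h1, firstKind_frame]
    have h2 := hyp₁ (E * ω * E.transpose) (by
      rw [Matrix.transpose_mul, Matrix.transpose_mul, Matrix.transpose_transpose, hω,
        Matrix.neg_mul, Matrix.mul_neg, Matrix.mul_assoc])
    linarith
  · have he : -frameR R₂ E - h • kn (1 : Mat (2 * n)) =
        -(frameR R₂ E + h • kn (1 : Mat (2 * n))) := by
      rw [neg_add, sub_eq_add_neg]
    rw [he]
    intro p S B hSB
    simp only [act_neg, sum_neg_distrib]
    exact neg_le_neg (hS p S B hSB)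

end Pool.Agent.H11S.Closed
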