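import Pool.Agent.Lib.H11S.Gen

/-!
# H11S: the operators `cos (∂_A)` for skew-symmetric `A`

`cosA A = Re exp (i ∂_A)`.  For a symmetric matrix `X` and a skew-symmetric matrix `A` one has
`(cos ∂_A det) (X + z) = det (X + z + i A)`, and `X + i A` is Hermitian.
-/

open Finset Filter Topology Polynomial

namespace Pool.Agent.H11S

open Pool.Agent.H69Hopf Pool.Agent.H88S

variable {N : ℕ}

/-- `Re (i ^ k)`. -/
noncomputable def cc (k : ℕ) : ℝ := ((Complex.I : ℂ) ^ k).re

theorem cc_complex (k : ℕ) : ((cc k : ℝ) : ℂ) = (Complex.I ^ k + (-Complex.I) ^ k) / 2 := by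
  unfold cc
  rw [Complex.re_eq_add_conj, map_pow, Complex.conj_I]

theorem cc_even (k : ℕ) : cc (2 * k) = (-1) ^ k := by
  unfold cc
  rw [pow_mul, Complex.I_sq]
  have : ((-1 : ℂ)) ^ k = (((-1 : ℝ) ^ k : ℝ) : ℂ) := by push_cast; rfl
  rw [this, Complex.ofReal_re]

theorem cc_odd (k : ℕ) : cc (2 * k + 1) = 0 := by
  unfold cc
  rw [pow_succ, pow_mul, Complex.I_sq]
  have : ((-1 : ℂ)) ^ k = (((-1 : ℝ) ^ k : ℝ) : ℂ) := by push_cast; rfl
  rw [this, Complex.re_ofReal_mul, Complex.I_re, mul_zero]

theorem cc_mul (i j : ℕ) : cc (i + j) * (1 + (-1) ^ j) = 2 * (cc i * cc j) := by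
  rcases Nat.even_or_odd' j with ⟨k, rfl | rfl⟩
  · have h1 : cc (i + 2 * k) = cc i * (-1) ^ k := by
      unfold cc
      rw [pow_add, pow_mul, Complex.I_sq]
      have : ((-1 : ℂ)) ^ k = (((-1 : ℝ) ^ k : ℝ) : ℂ) := by push_cast; rfl
      rw [this, Complex.re_mul_ofReal]
    rw [h1, cc_even, pow_mul]
    norm_num
    ring
  · rw [cc_odd, pow_succ, pow_mul]
    norm_num

/-- The cosine series, truncated. -/
noncomputable def cosO (A : Op N) : Op N := ∑ k ∈ range (N + 1), (cc k / k.factorial) • A ^ k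

/-- `cos (∂_A)`. -/
noncomputable def cosA (A : Mat N) : Op N := cosO (dA A)

theorem cosO_mem {A : Op N} (hA : A ∈ U N) : cosO A ∈ U N :=
  sum_mem fun k _ => Subalgebra.smul_mem _ (pow_mem hA k) _

theorem cosA_mem (A : Mat N) : cosA A ∈ U N := cosO_mem (dA_mem A)

theorem cosO_apply (A : Op N) (G : PP N) :
    cosO A G = ∑ k ∈ range (N + 1), (cc k / k.factorial) • (A ^ k) G := by
  unfold cosO
  rw [LinearMap.sum_apply]
  rfl

theorem pos_kill {A : Op N} (hA : Pos A) : A (Pi.single none0 1) = 0 := by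
  funext c
  refine hA 1 _ (fun c' hc' => ?_) c (by omega)
  refine Pi.single_eq_of_ne ?_ _
  rintro rfl
  simp [wt, none0] at hc'

theorem cosO_single {A : Op N} (hA : Pos A) :
    cosO A (Pi.single none0 1) = Pi.single none0 1 := by
  have h1 := pos_kill hA
  rw [cosO_apply, sum_eq_single 0]
  · simp [cc]
  · intro k _ hk
    obtain ⟨m, rfl⟩ := Nat.exists_eq_succ_of_ne_zero hk
    rw [Nat.succ_eq_add_one, pow_succ, Module.End.mul_apply, h1, map_zero, smul_zero]
  · simp

theorem cosA_zero : cosA (0 : Mat N) = 1 := by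
  unfold cosA cosO
  rw [dA_zero, sum_eq_single 0]
  · simp [cc]
  · intro k _ hk
    rw [zero_pow hk, smul_zero]
  · simp

/-- The value at `z • 1`, as a linear functional. -/
noncomputable def phi (N : ℕ) (z : ℂ) : PP N →ₗ[ℝ] ℂ where
  toFun G := cev (lineP G) z
  map_add' G H := by
    simp only [cev_lineP, map_add, ev0_add, Complex.ofReal_add, mul_add, Finset.sum_add_distrib]
  map_smul' a G := by
    simp only [cev_lineP, map_smul, ev0_smul, Complex.ofReal_mul, RingHom.id_apply,
      Complex.real_smul, Finset.mul_sum]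
    refine Finset.sum_congr rfl fun k _ => by ring

theorem phi_apply (z : ℂ) (G : PP N) : phi N z G = cev (lineP G) z := rfl

theorem phi_detRow (X : Mat N) (z : ℂ) :
    phi N z (detRow X) = (X.map Complex.ofReal + z • (1 : Matrix (Fin N) (Fin N) ℂ)).det := by
  have h1 := detRow_shift X 1 z none0
  rw [dA_one, BOUNDS_detRowC0] at h1
  have h2 : (1 : Mat N).map Complex.ofReal = (1 : Matrix (Fin N) (Fin N) ℂ) :=
    Matrix.map_one _ Complex.ofReal_zero Complex.ofReal_one
  rw [h2] at h1
  rw [phi_apply, cev_lineP]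
  exact h1

/-- Taylor expansion in two complex variables. -/
theorem shift2 (X A : Mat N) (z w : ℂ) :
    ∑ l ∈ range (N + 1), (w ^ l / (l.factorial : ℂ)) * phi N z ((dA A ^ l) (detRow X)) =
      (X.map Complex.ofReal + z • (1 : Matrix (Fin N) (Fin N) ℂ) + w • A.map Complex.ofReal).det := by
  set B : Matrix (Fin N) (Fin N) ℂ := X.map Complex.ofReal + z • (1 : Matrix (Fin N) (Fin N) ℂ)
    with hB
  set A' : Matrix (Fin N) (Fin N) ℂ := A.map Complex.ofReal with hA'
  set p : Polynomial ℂ := ∑ l ∈ range (N + 1),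
    Polynomial.C (phi N z ((dA A ^ l) (detRow X)) / (l.factorial : ℂ)) * Polynomial.X ^ l with hp
  set q : Polynomial ℂ := ((Polynomial.X : Polynomial ℂ) • A'.map Polynomial.C +
    B.map Polynomial.C).det with hq
  have hpe : ∀ s : ℂ, p.eval s = ∑ l ∈ range (N + 1),
      (s ^ l / (l.factorial : ℂ)) * phi N z ((dA A ^ l) (detRow X)) := by
    intro s
    rw [hp, Polynomial.eval_finsetSum]
    refine Finset.sum_congr rfl fun l _ => ?_
    simp only [Polynomial.eval_mul, Polynomial.eval_C, Polynomial.eval_pow, Polynomial.eval_X]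
    ring
  have hqe : ∀ s : ℂ, q.eval s = (B + s • A').det := by
    intro s
    rw [hq, ← Polynomial.coe_evalRingHom, RingHom.map_det]
    congr 1
    ext i j
    simp only [RingHom.mapMatrix_apply, Matrix.map_apply, Matrix.add_apply, Matrix.smul_apply,
      smul_eq_mul, Polynomial.coe_evalRingHom, Polynomial.eval_add, Polynomial.eval_mul,
      Polynomial.eval_X, Polynomial.eval_C]
    ring
  have hreal : ∀ s : ℝ, p.eval (s : ℂ) = q.eval (s : ℂ) := by
    intro s
    rw [hpe, hqe]
    have h1 : phi N z (detRow (X + s • A)) = (B + (s : ℂ) • A').det := by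
      rw [phi_detRow]
      congr 1
      ext i j
      simp only [hB, hA', Matrix.add_apply, Matrix.map_apply, Matrix.smul_apply, smul_eq_mul,
        Complex.ofReal_add, Complex.ofReal_mul]
      ring
    rw [← h1, ← E_dA_detRow, dA_smul, E_smul_apply, map_sum]
    refine Finset.sum_congr rfl fun l _ => ?_
    rw [map_smul, Complex.real_smul]
    push_cast
    rfl
  have hpq : p = q := by
    refine Polynomial.eq_of_infinite_eval_eq p q ?_
    refine Set.Infinite.mono ?_ (Set.infinite_range_of_injective Complex.ofReal_injective)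
    rintro _ ⟨s, rfl⟩
    exact hreal s
  rw [← hpe, hpq, hqe]

theorem phi_cosA (X A : Mat N) (z : ℂ) :
    phi N z (cosA A (detRow X)) =
      ((X.map Complex.ofReal + z • (1 : Matrix (Fin N) (Fin N) ℂ) +
          Complex.I • A.map Complex.ofReal).det +
        (X.map Complex.ofReal + z • (1 : Matrix (Fin N) (Fin N) ℂ) +
          (-Complex.I) • A.map Complex.ofReal).det) / 2 := by
  rw [← shift2, ← shift2, ← Finset.sum_add_distrib, Finset.sum_div]
  unfold cosA
  rw [cosO_apply, map_sum]
  refine Finset.sum_congr rfl fun l _ => ?_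
  rw [map_smul, Complex.real_smul]
  push_cast
  rw [cc_complex]
  ring

/-- A root of the characteristic polynomial of a Hermitian matrix is real. -/
theorem herm_real {H : Matrix (Fin N) (Fin N) ℂ} (hH : H.IsHermitian) {z : ℂ}
    (hz : (H + z • (1 : Matrix (Fin N) (Fin N) ℂ)).det = 0) : z.im = 0 := by
  obtain ⟨v, hv0, hv⟩ := Matrix.exists_mulVec_eq_zero_iff.mpr hz
  have h1 := hH.im_star_dotProduct_mulVec_self v
  rw [Matrix.add_mulVec, Matrix.smul_mulVec, Matrix.one_mulVec] at hv
  have h3 : H.mulVec v = - (z • v) := eq_neg_of_add_eq_zero_left hv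
  rw [h3, dotProduct_neg, dotProduct_smul] at h1
  have h4 : dotProduct (star v) v = ((∑ i, ‖v i‖ ^ 2 : ℝ) : ℂ) := by
    unfold dotProduct
    push_cast
    refine Finset.sum_congr rfl fun i _ => ?_
    rw [Pi.star_apply, Complex.star_def, mul_comm, Complex.mul_conj, Complex.normSq_eq_norm_sq]
    push_cast
    rfl
  have h5 : 0 < ∑ i, ‖v i‖ ^ 2 := by
    obtain ⟨i, hi⟩ := Function.ne_iff.mp hv0
    refine lt_of_lt_of_le (b := ‖v i‖ ^ 2) (by
      have : 0 < ‖v i‖ := norm_pos_iff.mpr hi
      positivity) ?_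
    exact Finset.single_le_sum (f := fun i => ‖v i‖ ^ 2) (fun _ _ => by positivity)
      (Finset.mem_univ i)
  rw [h4] at h1
  have h6 : z.im * (∑ i, ‖v i‖ ^ 2) = 0 := by
    have h7 : (-(z • ((∑ i, ‖v i‖ ^ 2 : ℝ) : ℂ))).im = - (z.im * ∑ i, ‖v i‖ ^ 2) := by
      rw [smul_eq_mul, Complex.neg_im, Complex.mul_im, Complex.ofReal_im, Complex.ofReal_re,
        mul_zero, zero_add]
    have h8 : (-(z • ((∑ i, ‖v i‖ ^ 2 : ℝ) : ℂ))).im = 0 := h1
    rw [h7] at h8
    linarith
  rcases mul_eq_zero.mp h6 with h | h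
  · exact h
  · exact absurd h h5.ne'

theorem rr_cosA {X A : Mat N} (hX : X.IsSymm) (hA : A.transpose = -A) :
    RR N (lineP (cosA A (detRow X))) := by
  refine RealRooted.rr (fun z hz => ?_) (natDegree_lineP_le _)
  rw [← phi_apply, phi_cosA] at hz
  have hA' : ∀ i j, A j i = - A i j := fun i j => by
    have := congrFun (congrFun hA i) j
    simpa using this
  have htr : (X.map Complex.ofReal + z • (1 : Matrix (Fin N) (Fin N) ℂ) +
      (-Complex.I) • A.map Complex.ofReal) =
      (X.map Complex.ofReal + z • (1 : Matrix (Fin N) (Fin N) ℂ) +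
        Complex.I • A.map Complex.ofReal).transpose := by
    ext i j
    simp only [Matrix.add_apply, Matrix.map_apply, Matrix.smul_apply, smul_eq_mul,
      Matrix.transpose_apply, Matrix.one_apply, hA' i j, hX.apply i j]
    by_cases h : i = j
    · rw [if_pos h, if_pos h.symm]
      push_cast
      ring
    · rw [if_neg h, if_neg (Ne.symm h)]
      push_cast
      ring
  rw [htr, Matrix.det_transpose, ← two_mul, mul_div_cancel_left₀ _ (two_ne_zero)] at hz
  have hH : (X.map Complex.ofReal + Complex.I • A.map Complex.ofReal).IsHermitian := by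
    ext i j
    simp only [Matrix.conjTranspose_apply, Matrix.add_apply, Matrix.map_apply, Matrix.smul_apply,
      smul_eq_mul, star_add, star_mul', Complex.star_def, Complex.conj_ofReal, Complex.conj_I,
      hA' i j, hX.apply i j]
    push_cast
    ring
  refine herm_real hH (z := z) ?_
  rw [← hz]
  congr 1
  abel

theorem start_cosA {A : Mat N} (hA : A.transpose = -A) : IsStart (cosA A) where
  mem := cosA_mem A
  one := cosO_single (pos_dA A)
  good := by
    intro η hη X hX
    have hg : E ((-η) • (dg ^ 2 : Op N)) ∈ U N :=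
      E_mem (Subalgebra.smul_mem _ (pow_mem dg_mem 2) _)
    have h2 : E (dA X) (E ((-η) • (dg ^ 2 : Op N)) (cosA A detP)) =
        E ((-η) • (dg ^ 2 : Op N)) (cosA A (detRow X)) := by
      rw [← E_dA_detP, LIMIT2_swap (E_mem (dA_mem X)) hg,
        LIMIT2_swap (E_mem (dA_mem X)) (cosA_mem A)]
    rw [h2, lineP_heat]
    exact rr_heat (rr_cosA hX hA) (natDegree_lineP_le _) hη

end Pool.Agent.H11S
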