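import Pool.Agent.Lib.H11S.Cos

/-!
# H11S: even monic operators, and the lower bound from a real-rooted even monic polynomial
-/

open Finset Filter Topology Polynomial

namespace Pool.Agent.H11S

open Pool.Agent.H69Hopf Pool.Agent.H88S

variable {N : ℕ}

/-- Supported in the weights `m`, `m - 2`, ... -/
def Par (m : ℕ) (G : PP N) : Prop := ∀ c, (¬ ∃ k, wt c + 2 * k = m) → G c = 0

/-- Operators lowering the weight by positive even numbers. -/
def EP (A : Op N) : Prop :=
  ∀ (m : ℕ) (G : PP N), Par m G → Par m (A G) ∧ ∀ c, wt c = m → A G c = 0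

theorem EP.zero : EP (0 : Op N) := fun _ _ _ => ⟨fun _ _ => rfl, fun _ _ => rfl⟩

theorem EP.add {A B : Op N} (hA : EP A) (hB : EP B) : EP (A + B) := by
  intro m G hG
  obtain ⟨a1, a2⟩ := hA m G hG
  obtain ⟨b1, b2⟩ := hB m G hG
  refine ⟨fun c hc => ?_, fun c hc => ?_⟩
  · rw [LinearMap.add_apply, Pi.add_apply, a1 c hc, b1 c hc, add_zero]
  · rw [LinearMap.add_apply, Pi.add_apply, a2 c hc, b2 c hc, add_zero]

theorem EP.smul {A : Op N} (s : ℝ) (hA : EP A) : EP (s • A) := by
  intro m G hG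
  obtain ⟨a1, a2⟩ := hA m G hG
  refine ⟨fun c hc => ?_, fun c hc => ?_⟩
  · rw [LinearMap.smul_apply, Pi.smul_apply, a1 c hc, smul_zero]
  · rw [LinearMap.smul_apply, Pi.smul_apply, a2 c hc, smul_zero]

theorem EP.sum {ι : Type*} (s : Finset ι) {A : ι → Op N} (hA : ∀ i ∈ s, EP (A i)) :
    EP (∑ i ∈ s, A i) := by
  classical
  induction s using Finset.induction_on with
  | empty => rw [Finset.sum_empty]; exact EP.zero
  | insert a s ha ih =>
    rw [Finset.sum_insert ha]
    exact (hA a (mem_insert_self _ _)).add (ih fun i hi => hA i (mem_insert_of_mem hi))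

theorem EP.of_hom {A : Op N} {d : ℕ} (hd : 0 < d) (hA : WEIGHT_Hom (2 * d) A) : EP A := by
  intro m G hG
  have key : ∀ c', A G c' ≠ 0 → ∃ k, wt c' + 2 * d + 2 * k = m := by
    intro c' hne
    rw [BOUNDS_expand] at hne
    obtain ⟨c, -, hc⟩ := Finset.exists_ne_zero_of_sum_ne_zero hne
    have h1 : G c ≠ 0 := left_ne_zero_of_mul hc
    have h2 : A (Pi.single c 1) c' ≠ 0 := right_ne_zero_of_mul hc
    have h3 : ∃ k, wt c + 2 * k = m := by
      by_contra h
      exact h1 (hG c h)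
    have h4 : wt c' + 2 * d = wt c := by
      by_contra h
      refine h2 (hA (wt c) (Pi.single c 1) (fun c0 hc0 => ?_) c' h)
      refine Pi.single_eq_of_ne ?_ _
      rintro rfl
      exact hc0 rfl
    obtain ⟨k, hk⟩ := h3
    exact ⟨k, by omega⟩
  refine ⟨fun c hc => ?_, fun c hc => ?_⟩
  · by_contra h
    obtain ⟨k, hk⟩ := key c h
    exact hc ⟨d + k, by omega⟩
  · by_contra h
    obtain ⟨k, hk⟩ := key c h
    omega

/-- Even monic operators. -/
def EM (A : Op N) : Prop :=
  ∀ (m : ℕ) (G : PP N), Par m G → Par m (A G) ∧ ∀ c, wt c = m → A G c = G c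

theorem EM.one_add {A : Op N} (hA : EP A) : EM (1 + A) := by
  intro m G hG
  obtain ⟨a1, a2⟩ := hA m G hG
  refine ⟨fun c hc => ?_, fun c hc => ?_⟩
  · rw [LinearMap.add_apply, Module.End.one_apply, Pi.add_apply, hG c hc, a1 c hc, add_zero]
  · rw [LinearMap.add_apply, Module.End.one_apply, Pi.add_apply, a2 c hc, add_zero]

theorem EM.mul {A B : Op N} (hA : EM A) (hB : EM B) : EM (A * B) := by
  intro m G hG
  obtain ⟨b1, b2⟩ := hB m G hG
  obtain ⟨a1, a2⟩ := hA m (B G) b1
  refine ⟨a1, fun c hc => ?_⟩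
  rw [Module.End.mul_apply, a2 c hc, b2 c hc]

theorem EM_E_dR (s : ℝ) (R : Arr N) : EM (E (s • dR R)) := by
  have h : E (s • dR R) = 1 + ∑ k ∈ range N,
      ((((k + 1).factorial : ℝ)⁻¹) * s ^ (k + 1)) • dR R ^ (k + 1) := by
    unfold E
    rw [Finset.sum_range_succ', add_comm]
    congr 1
    · simp
    · refine Finset.sum_congr rfl fun k _ => ?_
      rw [_root_.smul_pow, smul_smul]
  rw [h]
  refine EM.one_add (EP.sum _ fun k _ => EP.smul _ (EP.of_hom (d := k + 1) (by omega) ?_))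
  exact WEIGHT_pow (WEIGHT_dR R) (k + 1)

theorem EM_cosA (A : Mat N) : EM (cosA A) := by
  have hA : WEIGHT_Hom 1 (dA A) := WEIGHT_sum _ fun i => WEIGHT_sum _ fun j =>
    WEIGHT_smul _ (WEIGHT_dd i j)
  have h : cosA A = 1 + ∑ k ∈ range N,
      (cc (k + 1) / ((k + 1).factorial : ℝ)) • dA A ^ (k + 1) := by
    unfold cosA cosO
    rw [Finset.sum_range_succ', add_comm]
    congr 1
    simp [cc]
  rw [h]
  refine EM.one_add (EP.sum _ fun k _ => ?_)
  rcases Nat.even_or_odd' (k + 1) with ⟨j, hj | hj⟩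
  · rw [hj]
    refine EP.smul _ (EP.of_hom (d := j) (by omega) ?_)
    have := WEIGHT_pow hA (2 * j)
    rwa [one_mul] at this
  · rw [hj, cc_odd, zero_div, zero_smul]
    exact EP.zero

theorem par_dg_detP {k : ℕ} (hk : k ≤ N) : Par (N - k) ((dg ^ k : Op N) detP) := by
  intro c hc
  have h1 : WEIGHT_Hom (1 * k) (dg ^ k : Op N) := WEIGHT_pow WEIGHT_dg k
  refine h1 N detP WEIGHT_detP c ?_
  intro h
  exact hc ⟨0, by omega⟩

variable {n : ℕ}

theorem coeff_em_top {W : Op (2 * n)} (hU : W ∈ U (2 * n)) (hW : EM W) :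
    (lineP (W detP)).coeff (2 * n) = 1 := by
  rw [coeff_lineP, LIMIT2_swap (pow_mem dg_mem _) hU]
  have h1 := (hW _ _ (par_dg_detP (N := 2 * n) (le_refl (2 * n)))).2 none0
    (by rw [WEIGHT_wt_none0]; omega)
  unfold ev0
  rw [h1]
  have h2 := ev0_dg_pow (N := 2 * n)
  unfold ev0 at h2
  rw [h2]
  have h3 : ((2 * n).factorial : ℝ) ≠ 0 := by positivity
  exact div_self h3

theorem coeff_em_odd {W : Op (2 * n)} (hU : W ∈ U (2 * n)) (hW : EM W) (k : ℕ) (hk : Odd k) :
    (lineP (W detP)).coeff k = 0 := by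
  rcases le_or_gt k (2 * n) with h | h
  · rw [coeff_lineP, LIMIT2_swap (pow_mem dg_mem _) hU]
    have h1 := (hW _ _ (par_dg_detP (N := 2 * n) h)).1 none0 (by
      rw [WEIGHT_wt_none0]
      rintro ⟨j, hj⟩
      obtain ⟨i, hi⟩ := hk
      omega)
    unfold ev0
    rw [h1, zero_div]
  · exact Polynomial.coeff_eq_zero_of_natDegree_lt (lt_of_le_of_lt (natDegree_lineP_le _) h)

/-- The lower bound. -/
theorem lower_of_rr {G : PP (2 * n)} (hRR : RR (2 * n) (lineP G))
    (htop : (lineP G).coeff (2 * n) = 1) (hodd : ∀ k, Odd k → (lineP G).coeff k = 0)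
    {h : ℝ} (hh : 0 ≤ h) :
    (2 * h) ^ n * (2 * n).factorial ≤
      n.factorial * ((-1) ^ n * ev0 (E ((-(2 * h)) • (dg ^ 2 : Op (2 * n))) G)) := by
  set f : Polynomial ℝ := lineP G with hf
  have hsign : ∀ k, k ≤ n → 0 ≤ (-1) ^ (n - k) * f.coeff (2 * k) := fun k hk =>
    even_sign hRR (natDegree_lineP_le _) htop hodd hk
  have hterm : ∀ k, ev0 (((-(2 * h)) ^ k / (k.factorial : ℝ)) • ((dg ^ 2) ^ k : Op (2 * n)) G) =
      (-(2 * h)) ^ k / (k.factorial : ℝ) * ((2 * k).factorial * f.coeff (2 * k)) := by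
    intro k
    rw [ev0_smul, ← pow_mul, hf, coeff_lineP]
    congr 1
    field_simp
  have h1 : ev0 (E ((-(2 * h)) • (dg ^ 2 : Op (2 * n))) G) = ∑ k ∈ range (2 * n + 1),
      (-(2 * h)) ^ k / (k.factorial : ℝ) * ((2 * k).factorial * f.coeff (2 * k)) := by
    rw [E_smul_apply, ev0_sum]
    exact Finset.sum_congr rfl fun k _ => hterm k
  have hfac : (0 : ℝ) < n.factorial := by positivity
  have hpm : ((-1 : ℝ) ^ n) * (-1) ^ n = 1 := by
    rw [← mul_pow]
    norm_num
  rw [h1, mul_sum]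
  have hnn : ∀ k ∈ range (2 * n + 1), 0 ≤
      (-1) ^ n * ((-(2 * h)) ^ k / (k.factorial : ℝ) * ((2 * k).factorial * f.coeff (2 * k))) := by
    intro k _
    rcases le_or_gt k n with hk | hk
    · have h3 := hsign k hk
      have h4 : (-1 : ℝ) ^ n * ((-(2 * h)) ^ k / (k.factorial : ℝ) *
          ((2 * k).factorial * f.coeff (2 * k))) =
          (2 * h) ^ k / (k.factorial : ℝ) * (2 * k).factorial *
            ((-1) ^ (n - k) * f.coeff (2 * k)) := by
        have h5 : (-(2 * h)) ^ k = (-1) ^ k * (2 * h) ^ k := by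
          rw [← mul_pow]
          ring
        have h6 : (-1 : ℝ) ^ n = (-1) ^ (n - k) * (-1) ^ k := by
          rw [← pow_add, Nat.sub_add_cancel hk]
        have h7 : ((-1 : ℝ) ^ k) * (-1) ^ k = 1 := by
          rw [← mul_pow]
          norm_num
        rw [h5, h6]
        linear_combination ((-1 : ℝ) ^ (n - k) * ((2 * h) ^ k / (k.factorial : ℝ)) *
          ((2 * k).factorial * f.coeff (2 * k))) * h7
      rw [h4]
      positivity
    · have : f.coeff (2 * k) = 0 :=
        Polynomial.coeff_eq_zero_of_natDegree_lt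
          (lt_of_le_of_lt (natDegree_lineP_le G) (by omega))
      rw [this]
      simp
  have hle := single_le_sum hnn (mem_range.2 (show n < 2 * n + 1 by omega))
  have htop' : (-1) ^ n * ((-(2 * h)) ^ n / (n.factorial : ℝ) *
      ((2 * n).factorial * f.coeff (2 * n))) = (2 * h) ^ n * (2 * n).factorial / n.factorial := by
    rw [htop]
    have h5 : (-(2 * h)) ^ n = (-1) ^ n * (2 * h) ^ n := by
      rw [← mul_pow]
      ring
    rw [h5]
    linear_combination ((2 * h) ^ n / (n.factorial : ℝ) * (2 * n).factorial) * hpm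
  rw [htop'] at hle
  calc (2 * h) ^ n * ((2 * n).factorial : ℝ) =
      n.factorial * ((2 * h) ^ n * (2 * n).factorial / n.factorial) := by
        field_simp
    _ ≤ _ := mul_le_mul_of_nonneg_left hle hfac.le

end Pool.Agent.H11S
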