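import Pool.Agent.Lib.H11S.Prod

/-!
# H11S: curvature tensors with nonnegative curvature operator

If the curvature operator of `R` (on bivectors) is nonnegative, then `R i j k l = ∑ κ i j κ k l` with
skew-symmetric `κ`, and by the Bianchi identity `𝒟_R = 2 ∑ ∂_κ²` on the elements with
antisymmetric second derivatives.
-/

open Finset
open scoped MatrixOrder

namespace Pool.Agent.H11S

open Pool.Agent.H69Hopf Pool.Agent.H88S

variable {N : ℕ}

/-- The quadratic form of the curvature operator on bivectors. -/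
noncomputable def firstKind (R : Arr N) (ω : Mat N) : ℝ :=
  ∑ i, ∑ j, ∑ k, ∑ l, R i j k l * ω i j * ω k l

theorem skew2 {R : Arr N} (hR : IsAlgCurv R) (i j k l : Fin N) : R i j k l = - R i j l k := by
  rw [hR.pair i j k l, hR.skew k l i j, hR.pair l k i j]

theorem skew_part {T : Fin N → Fin N → ℝ} (hT : ∀ i j, T i j = - T j i) (w : Fin N → Fin N → ℝ) :
    ∑ i, ∑ j, T i j * w i j = ∑ i, ∑ j, T i j * ((w i j - w j i) / 2) := by
  have h1 : ∑ i, ∑ j, T i j * w j i = - ∑ i, ∑ j, T i j * w i j := by
    rw [Finset.sum_comm, ← Finset.sum_neg_distrib]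
    refine Finset.sum_congr rfl fun i _ => ?_
    rw [← Finset.sum_neg_distrib]
    refine Finset.sum_congr rfl fun j _ => ?_
    rw [hT j i]
    ring
  have h2 : ∑ i, ∑ j, T i j * ((w i j - w j i) / 2) =
      (∑ i, ∑ j, T i j * w i j - ∑ i, ∑ j, T i j * w j i) / 2 := by
    rw [← Finset.sum_sub_distrib, Finset.sum_div]
    refine Finset.sum_congr rfl fun i _ => ?_
    rw [← Finset.sum_sub_distrib, Finset.sum_div]
    exact Finset.sum_congr rfl fun j _ => by ring
  rw [h2, h1]
  ring

theorem exists_kappa {R : Arr N} (hR : IsAlgCurv R)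
    (h : ∀ ω : Mat N, ω.transpose = -ω → 0 ≤ firstKind R ω) :
    ∃ κ : Fin N × Fin N → Mat N, (∀ p, (κ p).transpose = - κ p) ∧
      ∀ i j k l, R i j k l = ∑ p, κ p i j * κ p k l := by
  set G : Matrix (Fin N × Fin N) (Fin N × Fin N) ℝ :=
    Matrix.of fun p q => R p.1 p.2 q.1 q.2 with hG
  have hGsymm : G.IsHermitian := by
    ext p q
    rw [Matrix.conjTranspose_apply, star_trivial]
    simp only [hG, Matrix.of_apply]
    exact hR.pair _ _ _ _
  have hpsd : G.PosSemidef := by
    refine Matrix.PosSemidef.of_dotProduct_mulVec_nonneg hGsymm ?_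
    intro x
    set w : Fin N → Fin N → ℝ := fun i j => x (i, j) with hw
    set ω : Mat N := Matrix.of fun i j => (w i j - w j i) / 2 with hω
    have hωs : ω.transpose = -ω := by
      ext i j
      simp only [hω, Matrix.transpose_apply, Matrix.of_apply, Matrix.neg_apply]
      ring
    have h1 : star x ⬝ᵥ G.mulVec x = ∑ i, ∑ j, w i j * ∑ k, ∑ l, R i j k l * w k l := by
      unfold dotProduct Matrix.mulVec dotProduct
      rw [Fintype.sum_prod_type]
      refine Finset.sum_congr rfl fun i _ => Finset.sum_congr rfl fun j _ => ?_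
      rw [Pi.star_apply, star_trivial, Fintype.sum_prod_type]
      rfl
    have h2 : ∀ i j, ∑ k, ∑ l, R i j k l * w k l = ∑ k, ∑ l, R i j k l * ω k l := fun i j =>
      skew_part (fun k l => skew2 hR i j k l) w
    have h3 : ∑ i, ∑ j, w i j * ∑ k, ∑ l, R i j k l * w k l = firstKind R ω := by
      simp only [h2]
      have h4 := skew_part (T := fun i j => ∑ k, ∑ l, R i j k l * ω k l) (fun i j => by
        rw [← Finset.sum_neg_distrib]
        refine Finset.sum_congr rfl fun k _ => ?_
        rw [← Finset.sum_neg_distrib]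
        refine Finset.sum_congr rfl fun l _ => ?_
        rw [hR.skew i j k l]
        ring) w
      have h5 : ∑ i, ∑ j, w i j * ∑ k, ∑ l, R i j k l * ω k l =
          ∑ i, ∑ j, (∑ k, ∑ l, R i j k l * ω k l) * w i j :=
        Finset.sum_congr rfl fun i _ => Finset.sum_congr rfl fun j _ => mul_comm _ _
      rw [h5, h4]
      unfold firstKind
      refine Finset.sum_congr rfl fun i _ => Finset.sum_congr rfl fun j _ => ?_
      rw [Finset.sum_mul]
      refine Finset.sum_congr rfl fun k _ => ?_
      rw [Finset.sum_mul]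
      refine Finset.sum_congr rfl fun l _ => ?_
      rw [show ω i j = (w i j - w j i) / 2 from rfl]
      ring
    rw [h1, h3]
    exact h ω hωs
  obtain ⟨C, hC⟩ := CStarAlgebra.nonneg_iff_eq_star_mul_self.mp hpsd.nonneg
  rw [Matrix.star_eq_conjTranspose] at hC
  have hGC : ∀ p q, G p q = ∑ k, C k p * C k q := by
    intro p q
    rw [hC, Matrix.mul_apply]
    refine sum_congr rfl fun k _ => ?_
    rw [Matrix.conjTranspose_apply, star_trivial]
  have hCskew : ∀ k i j, C k (i, j) = - C k (j, i) := by
    intro k i j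
    have h1 : ∑ k, (C k (i, j) + C k (j, i)) ^ 2 = 0 := by
      have h2 : ∑ k, (C k (i, j) + C k (j, i)) ^ 2 =
          G (i, j) (i, j) + G (i, j) (j, i) + G (j, i) (i, j) + G (j, i) (j, i) := by
        rw [hGC, hGC, hGC, hGC, ← sum_add_distrib, ← sum_add_distrib, ← sum_add_distrib]
        exact sum_congr rfl fun k _ => by ring
      rw [h2]
      simp only [hG, Matrix.of_apply]
      rw [hR.skew i j i j, hR.skew i j j i]
      ring
    have h3 := (sum_eq_zero_iff_of_nonneg (fun k _ => sq_nonneg _)).mp h1 k (mem_univ k)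
    have h4 := pow_eq_zero_iff (two_ne_zero) |>.mp h3
    linarith
  refine ⟨fun p => Matrix.of fun i j => C p (i, j), fun p => ?_, fun i j k l => ?_⟩
  · ext i j
    simp only [Matrix.transpose_apply, Matrix.of_apply, Matrix.neg_apply]
    exact hCskew p j i
  · have := hGC (i, j) (k, l)
    simpa only [hG, Matrix.of_apply] using this

theorem dA_dA_apply (A : Mat N) (G : PP N) :
    dA A (dA A G) = ∑ i, ∑ k, ∑ j, ∑ l, (A i k * A j l) • dd i k (dd j l G) := by
  rw [dA_apply]
  refine Finset.sum_congr rfl fun i _ => Finset.sum_congr rfl fun k _ => ?_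
  rw [dA_apply, map_sum, Finset.smul_sum]
  refine Finset.sum_congr rfl fun j _ => ?_
  rw [map_sum, Finset.smul_sum]
  refine Finset.sum_congr rfl fun l _ => ?_
  rw [map_smul, smul_smul]

theorem dR_first {R : Arr N} (hR : IsAlgCurv R) {κ : Fin N × Fin N → Mat N}
    (hκ : ∀ i j k l, R i j k l = ∑ p, κ p i j * κ p k l) {G : PP N} (hG : Anti G) :
    dR R G = (∑ p, (2 : ℝ) • (dA (κ p) ^ 2 : Op N)) G := by
  have hsplit : ∀ i j k l, R i j k l = R i k j l - R j k i l := by
    intro i j k l
    have h1 := hR.bianchi i j k l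
    have h2 := hR.skew k i j l
    linarith
  have h1 : dR R G = ∑ i, ∑ j, ∑ k, ∑ l, (R i k j l • dd i k (dd j l G) +
      R j k i l • dd i l (dd j k G)) := by
    rw [dR_apply]
    refine Finset.sum_congr rfl fun i _ => Finset.sum_congr rfl fun j _ =>
      Finset.sum_congr rfl fun k _ => Finset.sum_congr rfl fun l _ => ?_
    rw [hsplit i j k l, sub_smul, sub_eq_add_neg, ← smul_neg]
    congr 2
    rw [hG i j k l, neg_neg]
  have key : ∑ p, dA (κ p) (dA (κ p) G) =
      ∑ i, ∑ k, ∑ j, ∑ l, R i k j l • dd i k (dd j l G) := by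
    simp only [dA_dA_apply]
    rw [Finset.sum_comm]
    refine Finset.sum_congr rfl fun i _ => ?_
    rw [Finset.sum_comm]
    refine Finset.sum_congr rfl fun k _ => ?_
    rw [Finset.sum_comm]
    refine Finset.sum_congr rfl fun j _ => ?_
    rw [Finset.sum_comm]
    refine Finset.sum_congr rfl fun l _ => ?_
    rw [hκ, Finset.sum_smul]
  have h2 : ∑ i, ∑ j, ∑ k, ∑ l, R i k j l • dd i k (dd j l G) =
      ∑ p, dA (κ p) (dA (κ p) G) := by
    rw [key]
    refine Finset.sum_congr rfl fun i _ => ?_
    rw [Finset.sum_comm]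
  have h3 : ∑ i, ∑ j, ∑ k, ∑ l, R j k i l • dd i l (dd j k G) =
      ∑ p, dA (κ p) (dA (κ p) G) := by
    rw [key, Finset.sum_comm]
    refine Finset.sum_congr rfl fun j _ => ?_
    rw [Finset.sum_comm]
    refine Finset.sum_congr rfl fun k _ => Finset.sum_congr rfl fun i _ =>
      Finset.sum_congr rfl fun l _ => ?_
    congr 1
    exact LIMIT2_swap (dd_mem i l) (dd_mem j k) G
  rw [h1]
  simp only [Finset.sum_add_distrib]
  rw [h2, h3, LinearMap.sum_apply, ← Finset.sum_add_distrib]
  refine Finset.sum_congr rfl fun p _ => ?_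
  rw [LinearMap.smul_apply, two_smul, sq, Module.End.mul_apply]

theorem E_congr_anti {A B : Op N} (hB : B ∈ U N) (h : ∀ G : PP N, Anti G → A G = B G)
    {G : PP N} (hG : Anti G) (s : ℝ) : E (s • A) G = E (s • B) G := by
  have hp : ∀ k : ℕ, (A ^ k) G = (B ^ k) G := by
    intro k
    induction k with
    | zero => rfl
    | succ k ih =>
      rw [pow_succ', pow_succ', Module.End.mul_apply, Module.End.mul_apply, ih]
      exact h _ (hG.apply (pow_mem hB k))
  rw [E_smul_apply, E_smul_apply]
  exact Finset.sum_congr rfl fun k _ => by rw [hp k]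

end Pool.Agent.H11S
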