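import Pool.Agent.Lib.H88S.Final

/-!
# H11S: the flow of H88S with a more general start

`gpath R δ η W t = exp (-t (𝒟_R + δ ∂_g²)) exp (-η ∂_g²) W det` for an operator `W` in the algebra
`U N` of the partial derivatives with `W 1 = 1` and such that all `exp (-η ∂_g²) W det` are good.
The proofs are those of `H88S` (`Path`, `Limit1`, `Limit2`, `Main`, `Final`), where `W = 1`.
-/

open Finset Filter Topology Polynomial

namespace Pool.Agent.H11S

open Pool.Agent.H69Hopf Pool.Agent.H88S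

variable {N : ℕ}

/-- Admissible starts. -/
structure IsStart (W : Op N) : Prop where
  mem : W ∈ U N
  one : W (Pi.single none0 1) = Pi.single none0 1
  good : ∀ η : ℝ, 0 ≤ η → Good (E ((-η) • (dg ^ 2 : Op N)) (W detP))

/-- The path `exp (-t (𝒟_R + δ ∂_g²)) exp (-η ∂_g²) W det`. -/
noncomputable def gpath (R : Arr N) (δ η : ℝ) (W : Op N) (t : ℝ) : PP N :=
  E ((-t) • (dR R + δ • dg ^ 2)) (E ((-η) • dg ^ 2) (W detP))

theorem gpath_zero (R : Arr N) (δ η : ℝ) (W : Op N) :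
    gpath R δ η W 0 = E ((-η) • (dg ^ 2 : Op N)) (W detP) := by
  unfold gpath
  rw [neg_zero, zero_smul, E_zero, Module.End.one_apply]

theorem gpath_sub (R : Arr N) (δ η : ℝ) (W : Op N) (t s : ℝ) :
    gpath R δ η W (t - s) = E (s • (dR R + δ • (dg ^ 2 : Op N))) (gpath R δ η W t) := by
  have h1 := E_add (pos_smul s (PATH_A_pos R δ)) (pos_smul (-t) (PATH_A_pos R δ))
    (U_comm (Subalgebra.smul_mem _ (PATH_A_mem R δ) s)
      (Subalgebra.smul_mem _ (PATH_A_mem R δ) (-t)))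
  rw [← add_smul, show s + -t = -(t - s) by ring] at h1
  have h2 := LinearMap.congr_fun h1 (E ((-η) • (dg ^ 2 : Op N)) (W detP))
  exact h2

theorem continuous_gpath (R : Arr N) (δ η : ℝ) (W : Op N) : Continuous (gpath R δ η W) := by
  rw [continuous_iff_continuousAt]
  intro t
  exact tendsto_E_smul (A := PATH_A R δ) (s := fun t : ℝ => -t) (s0 := -t) (l := 𝓝 t)
    (continuous_neg.tendsto t) tendsto_const_nhds

theorem anti_gpath (R : Arr N) (δ η : ℝ) {W : Op N} (hW : IsStart W) (t : ℝ) :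
    Anti (gpath R δ η W t) :=
  Anti.apply (E_mem (Subalgebra.smul_mem _ (PATH_A_mem R δ) _))
    (Anti.apply (E_mem (Subalgebra.smul_mem _ (pow_mem dg_mem 2) _))
      (Anti.apply hW.mem (anti_detRow 0)))

theorem gpath_V (R : Arr N) (δ η : ℝ) {W : Op N} (hW : IsStart W) : ∃ K : ℝ, ∀ t ∈ Set.Icc (0 : ℝ) 1, ∃ V : Op N, V ∈ U N ∧
    ev0 (V (Pi.single none0 1)) = 1 ∧ (∀ c c' : Idx N, |V (Pi.single c 1) c'| ≤ K) ∧
    ∀ X : Mat N, E (dA X) (gpath R δ η W t) = V (detRow X) := by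
  set V : ℝ → Op N := fun t => E ((-t) • PATH_A R δ) * E ((-η) • (dg ^ 2 : Op N)) * W with hV
  have hVU : ∀ t, V t ∈ U N := fun t =>
    mul_mem (mul_mem (E_mem (Subalgebra.smul_mem _ (PATH_A_mem R δ) _))
      (E_mem (Subalgebra.smul_mem _ (pow_mem dg_mem 2) _))) hW.mem
  have hcont : ∀ c c' : Idx N, Continuous fun t => V t (Pi.single c 1) c' := by
    intro c c'
    have h1 : Continuous fun t : ℝ =>
        E ((-t) • PATH_A R δ) (E ((-η) • (dg ^ 2 : Op N)) (W (Pi.single c 1))) := by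
      rw [continuous_iff_continuousAt]
      intro t
      exact tendsto_E_smul (A := PATH_A R δ) (s := fun t : ℝ => -t) (s0 := -t) (l := 𝓝 t)
        (continuous_neg.tendsto t) tendsto_const_nhds
    exact (continuous_apply c').comp h1
  have hbd : ∀ p : Idx N × Idx N, ∃ K : ℝ, ∀ t ∈ Set.Icc (0 : ℝ) 1,
      ‖V t (Pi.single p.1 1) p.2‖ ≤ K := fun p =>
    isCompact_Icc.exists_bound_of_continuousOn (hcont p.1 p.2).continuousOn
  choose K hK using hbd
  refine ⟨∑ p, |K p|, fun t ht => ⟨V t, hVU t, ?_, fun c c' => ?_, fun X => ?_⟩⟩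
  · rw [hV]
    simp only [Module.End.mul_apply]
    rw [hW.one, E_single_none0 (pos_smul _ pos_dg_sq), E_single_none0 (pos_smul _ (PATH_A_pos R δ))]
    unfold ev0
    rw [Pi.single_eq_same]
  · have h1 := hK (c, c') t ht
    rw [Real.norm_eq_abs] at h1
    have h2 : |K (c, c')| ≤ ∑ p, |K p| :=
      Finset.single_le_sum (f := fun p => |K p|) (fun _ _ => abs_nonneg _) (Finset.mem_univ (c, c'))
    exact h1.trans ((le_abs_self _).trans h2)
  · have h1 : gpath R δ η W t = V t detP := rfl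
    rw [h1, ← E_dA_detP X, ← Module.End.mul_apply, ← Module.End.mul_apply,
      (U_comm (E_mem (dA_mem X)) (hVU t)).eq]

theorem limit_extraction (R : Arr N) (δ η : ℝ) {W : Op N} (hW : IsStart W) {x : ℝ} (hx0 : 0 ≤ x) (hx1 : x < 1)
    (hgood : Good (gpath R δ η W x))
    (hbad : ∀ ε > 0, ∃ t, x < t ∧ t < x + ε ∧ t ≤ 1 ∧ ¬ Good (gpath R δ η W t)) :
    ∃ (G : PP N) (X : ℕ → Mat N) (a : ℕ → ℝ) (t : ℕ → ℝ),
      (∀ k, (X k).IsSymm) ∧ (∀ k, 0 < a k) ∧ (∀ k, x < t k) ∧ Tendsto t atTop (𝓝 x) ∧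
      Tendsto (fun k => a k • E (dA (X k)) (gpath R δ η W (t k))) atTop (𝓝 G) ∧
      lineP G ≠ 0 ∧ ev0 G = 0 ∧ ev0 (dg G) = 0 := by
  have _hx1 := hx1
  obtain ⟨K, hK⟩ := gpath_V R δ η hW
  obtain ⟨C, hC1, C', hC'0, hB⟩ := bounds N K
  have hC0 : 0 < C := by linarith
  -- the sequence
  have hex : ∀ k : ℕ, ∃ (t : ℝ) (X : Mat N) (y : ℝ), x < t ∧ t < x + 1 / ((k : ℝ) + 1) ∧ t ≤ 1 ∧
      X.IsSymm ∧ 0 < y ∧ cev (lineP (E (dA X) (gpath R δ η W t))) (y * Complex.I) = 0 := by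
    intro k
    obtain ⟨t, ht1, ht2, ht3, ht4⟩ := hbad (1 / ((k : ℝ) + 1)) (by positivity)
    obtain ⟨X, y, hX, hy, hr⟩ := LIMIT1_root ht4
    exact ⟨t, X, y, ht1, ht2, ht3, hX, hy, hr⟩
  choose t X y ht1 ht2 ht3 hX hy hroot using hex
  set H : ℕ → PP N := fun k => E (dA (X k)) (gpath R δ η W (t k)) with hH
  have hHV : ∀ k, (∀ y' : ℝ, C ≤ y' → cev (lineP (H k)) (y' * Complex.I) ≠ 0) ∧
      ‖H k‖ ≤ C' * ‖cev (lineP (H k)) (C * Complex.I)‖ := by
    intro k
    obtain ⟨V, hV1, hV2, hV3, hV4⟩ := hK (t k) ⟨hx0.trans (ht1 k).le, ht3 k⟩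
    have := hB V hV1 hV2 hV3 (X k) (hX k)
    simp only [hH, hV4]
    exact this
  have hyC : ∀ k, y k < C := by
    intro k
    by_contra hc
    push Not at hc
    exact (hHV k).1 (y k) hc (hroot k)
  have hH0 : ∀ k, 0 < ‖H k‖ := by
    intro k
    rw [norm_pos_iff]
    intro h0
    apply (hHV k).1 C le_rfl
    rw [h0, cev_lineP]
    refine Finset.sum_eq_zero fun j _ => ?_
    rw [map_zero]
    simp [ev0]
  set a : ℕ → ℝ := fun k => ‖H k‖⁻¹ with ha
  have ha0 : ∀ k, 0 < a k := fun k => inv_pos.2 (hH0 k)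
  set Gs : ℕ → PP N := fun k => a k • H k with hGs
  have hGn : ∀ k, ‖Gs k‖ = 1 := by
    intro k
    simp only [hGs, ha]
    rw [norm_smul, norm_inv, norm_norm, inv_mul_cancel₀ (hH0 k).ne']
  -- compactness
  have hcomp : IsCompact ((Metric.sphere (0 : PP N) 1) ×ˢ (Set.Icc (0 : ℝ) C)) :=
    (isCompact_sphere 0 1).prod isCompact_Icc
  obtain ⟨⟨G, y0⟩, ⟨hGmem, hy0mem⟩, φ, hφ, hlim⟩ := hcomp.tendsto_subseq (x := fun k => (Gs k, y k))
    (fun k => ⟨by simp [hGn k], (hy k).le, (hyC k).le⟩)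
  have hlimG : Tendsto (fun k => Gs (φ k)) atTop (𝓝 G) := (continuous_fst.tendsto _).comp hlim
  have hlimy : Tendsto (fun k => y (φ k)) atTop (𝓝 y0) := (continuous_snd.tendsto _).comp hlim
  have hlimt0 : Tendsto t atTop (𝓝 x) := by
    have h1 : Tendsto (fun k : ℕ => x + 1 / ((k : ℝ) + 1)) atTop (𝓝 (x + 0)) :=
      tendsto_const_nhds.add tendsto_one_div_add_atTop_nhds_zero_nat
    rw [add_zero] at h1
    exact tendsto_of_tendsto_of_tendsto_of_le_of_le tendsto_const_nhds h1 (fun k => (ht1 k).le)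
      (fun k => (ht2 k).le)
  have hlimt : Tendsto (fun k => t (φ k)) atTop (𝓝 x) := hlimt0.comp hφ.tendsto_atTop
  -- `lineP G ≠ 0`
  have hsc : ∀ k (z : ℂ), cev (lineP (Gs k)) z = (a k : ℂ) * cev (lineP (H k)) z := by
    intro k z
    simp only [hGs]
    rw [lineP_smul, cev_mul, cev_C]
  have hG1 : 1 ≤ C' * ‖cev (lineP G) (C * Complex.I)‖ := by
    have h1 := (tendsto_cev_lineP hlimG (tendsto_const_nhds (x := ((C : ℂ) * Complex.I)))).norm.const_mul C'
    refine ge_of_tendsto' h1 fun k => ?_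
    rw [hsc, norm_mul, Complex.norm_real, Real.norm_eq_abs, abs_of_pos (ha0 _)]
    have h2 := mul_le_mul_of_nonneg_left (hHV (φ k)).2 (ha0 (φ k)).le
    have h3 : a (φ k) * ‖H (φ k)‖ = 1 := inv_mul_cancel₀ (hH0 _).ne'
    rw [h3] at h2
    linarith
  have hG0 : lineP G ≠ 0 := by
    intro h0
    rw [h0] at hG1
    simp [cev] at hG1
    linarith
  have hGroot : cev (lineP G) (y0 * Complex.I) = 0 := by
    have h1 : Tendsto (fun k => ((y (φ k) : ℝ) : ℂ) * Complex.I) atTop (𝓝 ((y0 : ℂ) * Complex.I)) :=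
      ((Complex.continuous_ofReal.tendsto y0).comp hlimy).mul_const Complex.I
    have h2 := tendsto_cev_lineP hlimG h1
    have h3 : (fun k => cev (lineP (Gs (φ k))) (((y (φ k) : ℝ) : ℂ) * Complex.I)) = fun _ => 0 := by
      funext k
      rw [hsc]
      have := hroot (φ k)
      change cev (lineP (H (φ k))) _ = 0 at this
      rw [this, mul_zero]
    rw [h3] at h2
    exact (tendsto_nhds_unique tendsto_const_nhds h2).symm
  -- `lineP G` is real-rooted
  have hGRR : RR N (lineP G) := by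
    set A : Op N := dR R + δ • (dg ^ 2 : Op N) with hA
    have hAU : A ∈ U N := (U N).add_mem (dR_mem R) ((U N).smul_mem ((U N).pow_mem dg_mem 2) δ)
    have h1 : ∀ k, a (φ k) • E (dA (X (φ k))) (gpath R δ η W x) = E ((t (φ k) - x) • A) (Gs (φ k)) := by
      intro k
      have h2 : gpath R δ η W x = E ((t (φ k) - x) • A) (gpath R δ η W (t (φ k))) := by
        rw [← gpath_sub, sub_sub_cancel]
      have h3 : Commute (E (dA (X (φ k)))) (E ((t (φ k) - x) • A)) :=
        U_comm (E_mem (dA_mem _)) (E_mem ((U N).smul_mem hAU _))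
      have h4 : E (dA (X (φ k))) (E ((t (φ k) - x) • A) (gpath R δ η W (t (φ k)))) =
          E ((t (φ k) - x) • A) (E (dA (X (φ k))) (gpath R δ η W (t (φ k)))) :=
        congrFun (congrArg DFunLike.coe h3.eq) _
      rw [h2, h4]
      simp only [hGs, hH]
      rw [map_smul]
    have h5 : Tendsto (fun k => a (φ k) • E (dA (X (φ k))) (gpath R δ η W x)) atTop (𝓝 G) := by
      have h6 : Tendsto (fun k => t (φ k) - x) atTop (𝓝 0) := by
        have := hlimt.sub_const x
        rwa [sub_self] at this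
      have h7 := tendsto_E_smul (A := A) h6 hlimG
      rw [zero_smul, E_zero] at h7
      have h8 : (fun k => a (φ k) • E (dA (X (φ k))) (gpath R δ η W x)) =
          fun k => E ((t (φ k) - x) • A) (Gs (φ k)) := funext h1
      rw [h8]
      exact h7
    exact rr_lineP_of_tendsto h5 fun k => rr_lineP_smul _ (hgood (X (φ k)) (hX (φ k)))
  have hy00 : y0 = 0 := by
    have := hGRR.realRooted hG0 _ hGroot
    simpa using this
  have hdr := double_root hlimG (fun k => hy (φ k)) (by rw [← hy00]; exact hlimy) (fun k => by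
    rw [hsc]
    have := hroot (φ k)
    change cev (lineP (H (φ k))) _ = 0 at this
    rw [this, mul_zero])
  exact ⟨G, fun k => X (φ k), fun k => a (φ k), fun k => t (φ k), fun k => hX _, fun k => ha0 _,
    fun k => ht1 _, hlimt, hlimG, hG0, hdr.1, hdr.2⟩

theorem limit_rr (R : Arr N) (δ η : ℝ) {W : Op N} (hW : IsStart W) {x : ℝ} (hx0 : 0 ≤ x)
    (hgood : ∀ t ∈ Set.Icc 0 x, Good (gpath R δ η W t))
    {G : PP N} {X : ℕ → Mat N} {a : ℕ → ℝ} {t : ℕ → ℝ}
    (hX : ∀ k, (X k).IsSymm) (ht : Tendsto t atTop (𝓝 x))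
    (hG : Tendsto (fun k => a k • E (dA (X k)) (gpath R δ η W (t k))) atTop (𝓝 G)) :
    Anti G ∧ Good G ∧
    (0 < x → ∀ s ∈ Set.Icc 0 x, RR N (lineP (E (s • (dR R + δ • (dg ^ 2 : Op N))) G))) ∧
    (x = 0 → ∀ s ∈ Set.Icc 0 η, RR N (lineP (E (s • (dg ^ 2 : Op N)) G))) := by
  have hUA := LIMIT2_A_mem R δ
  have hUE : ∀ r : ℝ, E (r • (dR R + δ • (dg ^ 2 : Op N))) ∈ U N := fun r =>
    E_mem ((U N).smul_mem hUA r)
  have hUg : ∀ r : ℝ, E (r • (dg ^ 2 : Op N)) ∈ U N := fun r =>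
    E_mem ((U N).smul_mem (pow_mem dg_mem 2) r)
  have hUX : ∀ Y : Mat N, E (dA Y) ∈ U N := fun Y => E_mem (dA_mem Y)
  have hE0 : ∀ H : PP N, E ((0 : ℝ) • (dR R + δ • (dg ^ 2 : Op N))) H = H := by
    intro H
    rw [zero_smul, E_zero]
    rfl
  -- the path at time `y` in terms of the path at time `t k`
  have hpath : ∀ (y : ℝ) (k : ℕ), gpath R δ η W y =
      E ((t k - y) • (dR R + δ • (dg ^ 2 : Op N))) (gpath R δ η W (t k)) := by
    intro y k
    have h := gpath_sub R δ η W (t k) (t k - y)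
    rw [sub_sub_cancel] at h
    exact h
  have hswap : ∀ (y : ℝ) (k : ℕ), a k • E (dA (X k)) (gpath R δ η W y) =
      E ((t k - y) • (dR R + δ • (dg ^ 2 : Op N)))
        (a k • E (dA (X k)) (gpath R δ η W (t k))) := by
    intro y k
    rw [map_smul, LIMIT2_swap (hUE (t k - y)) (hUX (X k)), ← hpath y k]
  have htend : ∀ y : ℝ, Tendsto (fun k => a k • E (dA (X k)) (gpath R δ η W y)) atTop
      (𝓝 (E ((x - y) • (dR R + δ • (dg ^ 2 : Op N))) G)) := by
    intro y
    have h := tendsto_E_smul (A := dR R + δ • (dg ^ 2 : Op N)) (ht.sub_const y) hG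
    refine h.congr fun k => ?_
    exact (hswap y k).symm
  have hmain : ∀ y ∈ Set.Icc 0 x, ∀ Y : Mat N, Y.IsSymm →
      RR N (lineP (E (dA Y) (E ((x - y) • (dR R + δ • (dg ^ 2 : Op N))) G))) := by
    intro y hy Y hY
    have h2 : Tendsto (fun k => E (dA Y) (a k • E (dA (X k)) (gpath R δ η W y))) atTop
        (𝓝 (E (dA Y) (E ((x - y) • (dR R + δ • (dg ^ 2 : Op N))) G))) :=
      ((continuous_op (E (dA Y))).tendsto _).comp (htend y)
    refine rr_lineP_of_tendsto h2 fun k => ?_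
    rw [map_smul, E_dA_add]
    exact rr_lineP_smul _ (hgood y hy (Y + X k) (hY.add (hX k)))
  refine ⟨?_, ?_, ?_, ?_⟩
  · refine Anti.of_tendsto (fun k => ?_) hG
    exact ((anti_gpath R δ η hW (t k)).apply (hUX (X k))).smul (a k)
  · intro Y hY
    have h := hmain x ⟨hx0, le_rfl⟩ Y hY
    rwa [sub_self, hE0] at h
  · intro _ s hs
    have h := hmain (x - s) ⟨by linarith [hs.2], by linarith [hs.1]⟩ 0 Matrix.isSymm_zero
    rw [sub_sub_cancel] at h
    have h0 : (dA (0 : Mat N)) = 0 := by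
      unfold dA
      simp
    rw [h0, E_zero] at h
    exact h
  · intro hx s hs
    subst hx
    have hcomb : E (s • (dg ^ 2 : Op N)) (gpath R δ η W 0) =
        E ((-(η - s)) • (dg ^ 2 : Op N)) (W detP) := by
      rw [gpath_zero]
      have h1 : ((-(η - s)) • (dg ^ 2 : Op N)) = s • (dg ^ 2 : Op N) + (-η) • (dg ^ 2 : Op N) := by
        rw [← add_smul]
        congr 1
        ring
      rw [h1, E_add (pos_smul s pos_dg_sq) (pos_smul (-η) pos_dg_sq)
        (U_comm ((U N).smul_mem (pow_mem dg_mem 2) s) ((U N).smul_mem (pow_mem dg_mem 2) (-η))),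
        Module.End.mul_apply]
    have hg2 : Good (E (s • (dg ^ 2 : Op N)) (gpath R δ η W 0)) := by
      rw [hcomb]
      exact hW.good (η - s) (by linarith [hs.2])
    have h2 : Tendsto (fun k => E (s • (dg ^ 2 : Op N)) (a k • E (dA (X k)) (gpath R δ η W 0))) atTop
        (𝓝 (E (s • (dg ^ 2 : Op N)) (E (((0 : ℝ) - 0) • (dR R + δ • (dg ^ 2 : Op N))) G))) :=
      ((continuous_op (E (s • (dg ^ 2 : Op N)))).tendsto _).comp (htend 0)
    rw [sub_self, hE0] at h2
    refine rr_lineP_of_tendsto h2 fun k => ?_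
    rw [map_smul, LIMIT2_swap (hUg s) (hUX (X k))]
    exact rr_lineP_smul _ (hg2 (X k) (hX k))

/-- Every time has a right neighbourhood of good times. -/
theorem good_right {R : Arr N} (hR : IsAlgCurv R) (hH : SphereNonneg R) {δ η : ℝ} (hδ : 0 < δ)
    (hη : 0 < η) {W : Op N} (hW : IsStart W) {x : ℝ} (hx0 : 0 ≤ x) (hx1 : x < 1)
    (hgood : ∀ t ∈ Set.Icc 0 x, Good (gpath R δ η W t)) :
    ∃ ε > 0, ∀ t, x < t → t < x + ε → t ≤ 1 → Good (gpath R δ η W t) := by
  by_contra hcon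
  push Not at hcon
  obtain ⟨G, X, a, t, hX, ha, hxt, ht, hlim, hne, h0, h1⟩ := limit_extraction R δ η hW hx0 hx1
    (hgood x ⟨hx0, le_rfl⟩) (fun ε hε => by
      obtain ⟨t, h1, h2, h3, h4⟩ := hcon ε hε
      exact ⟨t, h1, h2, h3, h4⟩)
  obtain ⟨hA, hG, hpos, hzero⟩ := limit_rr R δ η hW hx0 hgood hX ht hlim
  obtain ⟨m0, hm0⟩ := exists_of_lineP_ne_zero hne
  classical
  let m := Nat.find (p := fun m => ev0 ((dg ^ m : Op N) G) ≠ 0) ⟨m0, hm0⟩
  have hκ : ev0 ((dg ^ m : Op N) G) ≠ 0 :=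
    Nat.find_spec (p := fun m => ev0 ((dg ^ m : Op N) G) ≠ 0) ⟨m0, hm0⟩
  have hlt : ∀ j < m, ev0 ((dg ^ j : Op N) G) = 0 := fun j hj => by
    by_contra h
    exact Nat.find_min (p := fun m => ev0 ((dg ^ m : Op N) G) ≠ 0) ⟨m0, hm0⟩ hj h
  have hm : 2 ≤ m := by
    by_contra hlt2
    have : m = 0 ∨ m = 1 := by omega
    rcases this with h | h
    · rw [h] at hκ
      exact hκ (by simpa using h0)
    · rw [h] at hκ
      exact hκ (by simpa using h1)
  rcases hx0.lt_or_eq with hx | hx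
  · have hAm : (dR R + δ • (dg ^ 2 : Op N)) ∈ U N :=
      add_mem (dR_mem R) (Subalgebra.smul_mem _ (pow_mem dg_mem 2) _)
    exact contradiction hR hH hδ hA hG hm hlt hκ (local_time hAm hx (hpos hx) hm hlt)
  · have h2 := local_time (pow_mem dg_mem 2) hη (hzero hx.symm) hm hlt
    rw [← pow_add] at h2
    have h3 : 2 + (m - 2) = m := by omega
    rw [h3] at h2
    have : 0 < ev0 ((dg ^ m : Op N) G) * ev0 ((dg ^ m : Op N) G) := mul_self_pos.2 hκ
    linarith

theorem good_path {R : Arr N} (hR : IsAlgCurv R) (hH : SphereNonneg R) {δ η : ℝ} (hδ : 0 < δ)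
    (hη : 0 < η) {W : Op N} (hW : IsStart W) : ∀ t ∈ Set.Icc (0 : ℝ) 1, Good (gpath R δ η W t) := by
  -- the supremum of the good initial intervals
  by_contra hcon
  push Not at hcon
  obtain ⟨b, ⟨hb0, hb1⟩, hb⟩ := hcon
  let s : Set ℝ := {t | 0 ≤ t ∧ ¬ Good (gpath R δ η W t)}
  have hsb : BddBelow s := ⟨0, fun t ht => ht.1⟩
  have hsn : s.Nonempty := ⟨b, hb0, hb⟩
  set x := sInf s with hx
  have hx0 : 0 ≤ x := le_csInf hsn fun t ht => ht.1
  have hxb : x ≤ b := csInf_le hsb ⟨hb0, hb⟩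
  have hlt : ∀ t, 0 ≤ t → t < x → Good (gpath R δ η W t) := fun t ht htx => by
    by_contra h
    exact absurd (csInf_le hsb (show t ∈ s from ⟨ht, h⟩)) (not_le.2 htx)
  have h00 : Good (gpath R δ η W 0) := by
    rw [gpath_zero]
    exact hW.good η hη.le
  have hxg : Good (gpath R δ η W x) := by
    rcases hx0.lt_or_eq with hxp | hxp
    · have hlim : Tendsto (fun k : ℕ => x - x / (k + 1)) atTop (𝓝 x) := by
        have h1 : Tendsto (fun k : ℕ => x / ((k : ℝ) + 1)) atTop (𝓝 0) := by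
          have := tendsto_const_div_atTop_nhds_zero_nat x
          exact (tendsto_add_atTop_iff_nat 1).2 this |>.congr fun k => by push_cast; rfl
        simpa using tendsto_const_nhds.sub h1
      refine good_of_tendsto (((continuous_gpath R δ η W).tendsto x).comp hlim) fun k => ?_
      have hk : (0 : ℝ) < k + 1 := by positivity
      refine hlt _ ?_ ?_
      · rw [sub_nonneg]
        exact div_le_self hxp.le (by linarith)
      · have : 0 < x / (k + 1) := by positivity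
        linarith
    · rw [← hxp]
      exact h00
  have hxlt : x < 1 := by
    rcases (hxb.trans hb1).lt_or_eq with h | h
    · exact h
    · exfalso
      have : b = x := le_antisymm (by rw [h]; exact hb1) hxb
      rw [this] at hb
      exact hb hxg
  obtain ⟨ε, hε, hgd⟩ := good_right hR hH hδ hη hW hx0 hxlt (fun t ht => by
    rcases ht.2.lt_or_eq with h | h
    · exact hlt t ht.1 h
    · rw [h]; exact hxg)
  -- a bad time in `(x, x + min ε (1 - x))`
  have hxs : x ∉ s := fun h => h.2 hxg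
  obtain ⟨t, hts, htlt⟩ := exists_lt_of_csInf_lt hsn
    (show sInf s < x + min ε (1 - x) by
      have : 0 < min ε (1 - x) := lt_min hε (by linarith)
      rw [← hx]
      linarith)
  have hxt : x < t := lt_of_le_of_ne (csInf_le hsb hts) fun h => hxs (h ▸ hts)
  refine hts.2 (hgd t hxt ?_ ?_)
  · have := min_le_left ε (1 - x)
    linarith
  · have := min_le_right ε (1 - x)
    linarith

theorem rr_final {N : ℕ} {R : Arr N} (hR : IsAlgCurv R) (hH : SphereNonneg R)
    {W : Op N} (hW : IsStart W) :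
    RR N (lineP (E ((-1 : ℝ) • dR R) (W detP))) := by
  have hlim1 : Tendsto (fun k : ℕ => -(1 / ((k : ℝ) + 1))) atTop (𝓝 0) := by
    simpa using (tendsto_one_div_add_atTop_nhds_zero_nat (𝕜 := ℝ)).neg
  have hpath : ∀ δ η : ℝ, gpath R δ η W 1 =
      E ((-1 : ℝ) • dR R) (E ((-δ) • (dg ^ 2 : Op N)) (E ((-η) • (dg ^ 2 : Op N)) (W detP))) := by
    intro δ η
    unfold gpath
    rw [← E_smul_add_apply (dR_mem R) (pow_mem dg_mem 2) (pos_dR R) pos_dg_sq]
    congr 2
    rw [smul_add, smul_smul]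
    congr 2
    ring
  have hE0 : ∀ G : PP N, E ((0 : ℝ) • (dg ^ 2 : Op N)) G = G := fun G => by
    rw [zero_smul, E_zero]
    rfl
  have hlim : Tendsto (fun k : ℕ => gpath R (1 / ((k : ℝ) + 1)) (1 / ((k : ℝ) + 1)) W 1) atTop
      (𝓝 (E ((-1 : ℝ) • dR R) (W detP))) := by
    simp only [hpath]
    have h1 := tendsto_E_smul (A := (dg ^ 2 : Op N)) hlim1
      (tendsto_const_nhds (x := (W detP : PP N)))
    have h2 := tendsto_E_smul (A := (dg ^ 2 : Op N)) hlim1 h1
    rw [hE0, hE0] at h2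
    exact ((continuous_op (E ((-1 : ℝ) • dR R))).tendsto _).comp h2
  refine rr_lineP_of_tendsto hlim fun k => ?_
  have hk : (0 : ℝ) < 1 / ((k : ℝ) + 1) := by positivity
  have h3 := good_path hR hH hk hk hW 1 ⟨zero_le_one, le_rfl⟩ 0 Matrix.isSymm_zero
  rw [dA_zero, E_zero] at h3
  exact h3

end Pool.Agent.H11S
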