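import Pool.Agent.Lib.H11S.Even
import Pool.Agent.Lib.H11S.Avg

/-!
# H11S: `cos a cos b = (cos (a + b) + cos (a - b)) / 2` and the Gaussian average of cosines
-/

open Finset Filter Topology

namespace Pool.Agent.H11S

open Pool.Agent.H69Hopf Pool.Agent.H88S

variable {N : ℕ}

theorem hom_eq_zero {A : Op N} {d : ℕ} (hA : WEIGHT_Hom d A) (hd : N < d) : A = 0 := by
  refine LinearMap.ext fun G => funext fun c' => ?_
  rw [BOUNDS_expand]
  refine Finset.sum_eq_zero fun c _ => ?_
  have h1 : A (Pi.single c 1) c' = 0 := by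
    refine hA (wt c) (Pi.single c 1) (fun c0 hc0 => ?_) c' ?_
    · refine Pi.single_eq_of_ne ?_ _
      rintro rfl
      exact hc0 rfl
    · have := wt_le c
      omega
  rw [h1, mul_zero]

theorem hom_dA (A : Mat N) : WEIGHT_Hom 1 (dA A) :=
  WEIGHT_sum _ fun i => WEIGHT_sum _ fun j => WEIGHT_smul _ (WEIGHT_dd i j)

theorem dA_pow_mul_eq_zero (A B : Mat N) {i j : ℕ} (h : N < i + j) :
    dA A ^ i * dA B ^ j = (0 : Op N) := by
  refine hom_eq_zero (d := 1 * i + 1 * j) (WEIGHT_mul (WEIGHT_pow (hom_dA A) i)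
    (WEIGHT_pow (hom_dA B) j)) ?_
  omega

theorem cosA_prod (A B : Mat N) :
    cosA (A + B) + cosA (A - B) = (2 : ℝ) • (cosA A * cosA B) := by
  have hc : Commute (dA A : Op N) (dA B) := U_comm (dA_mem A) (dA_mem B)
  have hneg : dA (A - B) = dA A + (-1 : ℝ) • dA B := by
    have h0 : A - B = A + (-1 : ℝ) • B := by
      ext i j
      simp [sub_eq_add_neg]
    rw [h0, dA_add, dA_smul]
  have hL : cosA (A + B) + cosA (A - B) = ∑ m ∈ range (N + 1), ∑ k ∈ range (m + 1),
      (2 * (cc k / k.factorial) * (cc (m - k) / (m - k).factorial)) •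
        (dA A ^ k * dA B ^ (m - k) : Op N) := by
    unfold cosA cosO
    rw [← Finset.sum_add_distrib]
    refine Finset.sum_congr rfl fun m _ => ?_
    rw [hneg, dA_add, ← smul_add, hc.add_pow, (hc.smul_right (-1 : ℝ)).add_pow, ← Finset.sum_add_distrib,
      Finset.smul_sum]
    refine Finset.sum_congr rfl fun k hk => ?_
    have hkm : k ≤ m := by
      have := Finset.mem_range.1 hk
      omega
    have h1 : ((-1 : ℝ) • dA B : Op N) ^ (m - k) = ((-1 : ℝ) ^ (m - k)) • dA B ^ (m - k) :=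
      _root_.smul_pow _ _ _
    have h2 : ((m.choose k : ℕ) : Op N) = ((m.choose k : ℕ) : ℝ) • (1 : Op N) := by
      rw [Nat.cast_smul_eq_nsmul, nsmul_one]
    rw [h1, h2]
    simp only [mul_smul_comm, mul_one, smul_smul, ← add_smul]
    congr 1
    have h3 := cc_mul k (m - k)
    rw [Nat.add_sub_cancel' hkm] at h3
    have h4 : ((m.choose k : ℕ) : ℝ) * k.factorial * (m - k).factorial = m.factorial := by
      exact_mod_cast Nat.choose_mul_factorial_mul_factorial hkm
    have h5 : (k.factorial : ℝ) ≠ 0 := by positivity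
    have h6 : ((m - k).factorial : ℝ) ≠ 0 := by positivity
    have h7 : (m.factorial : ℝ) ≠ 0 := by positivity
    rw [div_mul_eq_mul_div, div_eq_iff h7]
    have h8 : 2 * (cc k / (k.factorial : ℝ)) * (cc (m - k) / ((m - k).factorial : ℝ)) * m.factorial =
        (2 * (cc k * cc (m - k))) * ((m.factorial : ℝ) / (k.factorial * (m - k).factorial)) := by
      field_simp
    rw [h8, ← h3, ← h4]
    field_simp
  have hR : (2 : ℝ) • (cosA A * cosA B) = ∑ i ∈ range (N + 1), ∑ j ∈ range (N + 1),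
      (2 * (cc i / i.factorial) * (cc j / j.factorial)) • (dA A ^ i * dA B ^ j : Op N) := by
    unfold cosA cosO
    rw [Finset.sum_mul_sum, Finset.smul_sum]
    refine Finset.sum_congr rfl fun i _ => ?_
    rw [Finset.smul_sum]
    refine Finset.sum_congr rfl fun j _ => ?_
    rw [smul_mul_smul_comm, smul_smul]
    congr 1
    ring
  rw [hL, hR, Finset.sum_range_diag_flip (N + 1) (fun i j =>
    (2 * (cc i / i.factorial) * (cc j / j.factorial)) • (dA A ^ i * dA B ^ j : Op N))]
  refine Finset.sum_congr rfl fun i _ => ?_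
  refine Finset.sum_subset (Finset.range_subset_range.2 (Nat.sub_le _ _)) fun j _ hj => ?_
  rw [dA_pow_mul_eq_zero A B (by
    rw [Finset.mem_range] at hj
    omega), smul_zero]

/-- splitting a sum over a range of even length -/
theorem sum_even_odd {α : Type*} [AddCommMonoid α] (f : ℕ → α) (M : ℕ) :
    ∑ m ∈ range (2 * M), f m = ∑ k ∈ range M, (f (2 * k) + f (2 * k + 1)) := by
  induction M with
  | zero => simp
  | succ M ih =>
    rw [show 2 * (M + 1) = 2 * M + 1 + 1 by ring, Finset.sum_range_succ, Finset.sum_range_succ, ih,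
      Finset.sum_range_succ, add_assoc]

/-- the cosine series in even powers -/
theorem cosA_smul (s : ℝ) (A : Mat N) :
    cosA (s • A) = ∑ k ∈ range (N + 1),
      ((-1) ^ k * s ^ (2 * k) / ((2 * k).factorial : ℝ)) • (dA A ^ (2 * k) : Op N) := by
  have hz : ∀ m, N < m → (dA A ^ m : Op N) = 0 := by
    intro m hm
    have := dA_pow_mul_eq_zero A A (i := m) (j := 0) (by omega)
    rwa [pow_zero, mul_one] at this
  have h1 : cosA (s • A) = ∑ m ∈ range (2 * (N + 1)),
      (cc m * s ^ m / (m.factorial : ℝ)) • (dA A ^ m : Op N) := by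
    unfold cosA cosO
    rw [dA_smul]
    have h2 : ∀ m, (cc m / (m.factorial : ℝ)) • ((s • dA A) ^ m : Op N) =
        (cc m * s ^ m / (m.factorial : ℝ)) • (dA A ^ m : Op N) := by
      intro m
      rw [_root_.smul_pow, smul_smul]
      congr 1
      ring
    simp only [h2]
    refine Finset.sum_subset (Finset.range_subset_range.2 (by omega)) fun m _ hm => ?_
    rw [hz m (by
      rw [Finset.mem_range] at hm
      omega), smul_zero]
  rw [h1, sum_even_odd]
  refine Finset.sum_congr rfl fun k _ => ?_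
  rw [cc_even, cc_odd, zero_mul, zero_div, zero_smul, add_zero]

/-- Gaussian average: a lower bound for all the `ℓ (V cos (∂_A))`, `A` skew-symmetric, passes to
`ℓ (exp (-∂_κ²) V cos (∂_A))`. -/
theorem avg_step (ℓ : Op N →ₗ[ℝ] ℝ) (c : ℝ) (V : Op N)
    (h : ∀ A : Mat N, A.transpose = -A → c ≤ ℓ (V * cosA A)) {κ : Mat N}
    (hκ : κ.transpose = -κ) :
    ∀ A : Mat N, A.transpose = -A → c ≤ ℓ (V * E ((-1 : ℝ) • (dA κ ^ 2 : Op N)) * cosA A) := by
  intro A hA
  -- the average over `± 2 x κ`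
  have h1 : ∀ x : ℝ, c ≤ ℓ (V * (cosA A * cosA ((2 * x) • κ))) := by
    intro x
    have hp := cosA_prod A ((2 * x) • κ)
    have h2 := h (A + (2 * x) • κ) (by
      rw [Matrix.transpose_add, Matrix.transpose_smul, hA, hκ, smul_neg]
      abel)
    have h3 := h (A - (2 * x) • κ) (by
      rw [Matrix.transpose_sub, Matrix.transpose_smul, hA, hκ, smul_neg]
      abel)
    have h4 : ℓ (V * cosA (A + (2 * x) • κ)) + ℓ (V * cosA (A - (2 * x) • κ)) =
        2 * ℓ (V * (cosA A * cosA ((2 * x) • κ))) := by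
      rw [← map_add, ← mul_add, hp, mul_smul_comm, map_smul, smul_eq_mul]
    linarith
  set u : ℕ → ℝ := fun k => (-1) ^ k * 4 ^ k / ((2 * k).factorial : ℝ) *
    ℓ (V * (cosA A * (dA κ ^ (2 * k) : Op N))) with hu
  have h5 : ∀ x : ℝ, 0 < x → c ≤ ∑ k ∈ range (N + 1), u k * x ^ (2 * k) := by
    intro x _
    have h6 := h1 x
    rw [cosA_smul, Finset.mul_sum, Finset.mul_sum, map_sum] at h6
    refine h6.trans (le_of_eq (Finset.sum_congr rfl fun k _ => ?_))
    rw [mul_smul_comm, mul_smul_comm, map_smul, smul_eq_mul, hu]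
    have h7 : (2 * x) ^ (2 * k) = 4 ^ k * x ^ (2 * k) := by
      rw [mul_pow, pow_mul]
      norm_num
    simp only
    rw [h7]
    ring
  have h8 := avg (N + 1) u c h5
  refine h8.trans (le_of_eq ?_)
  have h9 : V * E ((-1 : ℝ) • (dA κ ^ 2 : Op N)) * cosA A =
      V * (cosA A * E ((-1 : ℝ) • (dA κ ^ 2 : Op N))) := by
    rw [mul_assoc, (U_comm (E_mem (Subalgebra.smul_mem _ (pow_mem (dA_mem κ) 2) _))
      (cosA_mem A)).eq]
  rw [h9]
  unfold E
  rw [Finset.mul_sum, Finset.mul_sum, map_sum]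
  refine Finset.sum_congr rfl fun k _ => ?_
  rw [mul_smul_comm, mul_smul_comm, map_smul, smul_eq_mul, _root_.smul_pow, ← pow_mul,
    mul_smul_comm, mul_smul_comm, map_smul, smul_eq_mul, hu]
  simp only
  have h11 : ((2 * k).factorial : ℝ) ≠ 0 := by positivity
  have h12 : (k.factorial : ℝ) ≠ 0 := by positivity
  have h13 : (4 : ℝ) ^ k ≠ 0 := by positivity
  field_simp

end Pool.Agent.H11S
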